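import Pool.Agent.H269.MEP.Defs
import Pool.Agent.H527R2.SharpP

/-!
# The Morse ensemble polynomial as an oracle
-/

set_option autoImplicit false

namespace Pool.Agent.H269.MEP

open Classical in
/-- The answer of an oracle for the Morse ensemble polynomial: for the list `K` of all simplices
of a simplicial complex of dimension at most two, the number whose binary digits (least significant
first) are the code of the list `ME K` followed by a final digit one; `0` for other lists. -/
noncomputable def answer (K : List (List ℕ)) : ℕ :=
  if IsComplex K then Pool.Agent.NPC.valB (Pool.Agent.NPC.bits (ME K) ++ [true]) else 0

end Pool.Agent.H269.MEP
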