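import Mathlib

/-!
# The cells of the complex of an incidence relation, and its acyclic matchings
-/

set_option autoImplicit false

namespace Pool.Agent.H269.MEP

open Finset

/-! ### Acyclic matchings of a relation -/

section General

variable {C : Type} (cov : C → C → Prop)

/-- matchings of a covering relation -/
def MT (M : Finset (C × C)) : Prop :=
  (∀ p ∈ M, cov p.1 p.2) ∧ ∀ p ∈ M, ∀ q ∈ M, p ≠ q → p.1 ≠ q.1 ∧ p.1 ≠ q.2 ∧ p.2 ≠ q.1 ∧ p.2 ≠ q.2

/-- the arrows of the modified Hasse diagram -/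
def Arr (M : Finset (C × C)) (x y : C) : Prop := (cov y x ∧ (y, x) ∉ M) ∨ (x, y) ∈ M

/-- no directed cycle -/
def Ac (M : Finset (C × C)) : Prop := ∀ x, ¬ Relation.TransGen (Arr cov M) x x

end General

section Cycles

variable {C : Type} {R R' : C → C → Prop} {l : C}

theorem cycle_of_noIn (h1 : ∀ x, ¬ R' x l) (h2 : ∀ x y, R' x y → x ≠ l → R x y) {x : C}
    (h : Relation.TransGen R' x x) : Relation.TransGen R x x := by
  have hx : x ≠ l := by
    rintro rfl
    rcases Relation.TransGen.tail'_iff.1 h with ⟨y, _, hy⟩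
    exact h1 y hy
  have key : ∀ y, Relation.TransGen R' x y → Relation.TransGen R x y ∧ y ≠ l := by
    intro y hy
    induction hy with
    | single h => exact ⟨Relation.TransGen.single (h2 _ _ h hx), fun e => h1 _ (e ▸ h)⟩
    | tail _ h ih => exact ⟨ih.1.tail (h2 _ _ h ih.2), fun e => h1 _ (e ▸ h)⟩
  exact (key x h).1

theorem cycle_of_noOut (h1 : ∀ x, ¬ R' l x) (h2 : ∀ x y, R' x y → y ≠ l → R x y) {x : C}
    (h : Relation.TransGen R' x x) : Relation.TransGen R x x := by
  have hx : x ≠ l := by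
    rintro rfl
    rcases Relation.TransGen.head'_iff.1 h with ⟨y, hy, _⟩
    exact h1 y hy
  have key : ∀ y, Relation.TransGen R' y x → Relation.TransGen R y x ∧ y ≠ l := by
    intro y hy
    induction hy using Relation.TransGen.head_induction_on with
    | single h => exact ⟨Relation.TransGen.single (h2 _ _ h hx), fun e => h1 _ (e ▸ h)⟩
    | head h _ ih => exact ⟨Relation.TransGen.head (h2 _ _ h ih.2) ih.1, fun e => h1 _ (e ▸ h)⟩
  exact (key x h).1

end Cycles

/-! ### The cells -/

variable {U P : Type} [Fintype U] [Fintype P] [DecidableEq U] [DecidableEq P]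
  (inc : U → P → Bool)

/-- incidences -/
abbrev Inc : Type := {t : U × P // inc t.1 t.2 = true}

/-- the cells -/
inductive Cl : Type
  | a (u : U) (b : Bool)
  | l (u : U) (b : Bool)
  | p (x : P)
  | pe (u : U) (b : Bool)
  | f (u : U)
  | g (t : Inc inc) (b : Bool)
  | tt (t : Inc inc)
  deriving DecidableEq

variable {inc}

/-- an embedding into a finite type -/
def Cl.code : Cl inc → (U × Bool) ⊕ (U × Bool) ⊕ P ⊕ (U × Bool) ⊕ U ⊕ (Inc inc × Bool) ⊕ Inc inc
  | .a u b => .inl (u, b)
  | .l u b => .inr (.inl (u, b))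
  | .p x => .inr (.inr (.inl x))
  | .pe u b => .inr (.inr (.inr (.inl (u, b))))
  | .f u => .inr (.inr (.inr (.inr (.inl u))))
  | .g t b => .inr (.inr (.inr (.inr (.inr (.inl (t, b))))))
  | .tt t => .inr (.inr (.inr (.inr (.inr (.inr t)))))

omit [Fintype U] [Fintype P] [DecidableEq U] [DecidableEq P] in
theorem Cl.code_inj : Function.Injective (Cl.code (inc := inc)) := by
  intro x y h
  cases x <;> cases y <;> simp_all [Cl.code]

noncomputable instance : Fintype (Cl inc) := Fintype.ofInjective _ Cl.code_inj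

/-- the covering pairs -/
inductive Cv : Cl inc → Cl inc → Prop
  | a_pe (u : U) (b : Bool) : Cv (.a u b) (.pe u b)
  | l_pe (u : U) (b : Bool) : Cv (.l u b) (.pe u b)
  | a_f (u : U) (b : Bool) : Cv (.a u b) (.f u)
  | a_g (t : Inc inc) (b : Bool) : Cv (.a t.1.1 b) (.g t b)
  | p_g (t : Inc inc) (b : Bool) : Cv (.p t.1.2) (.g t b)
  | f_t (t : Inc inc) : Cv (.f t.1.1) (.tt t)
  | g_t (t : Inc inc) (b : Bool) : Cv (.g t b) (.tt t)

/-! ### Freezing -/

/-- the pair of a frozen vertex -/
def frz (ub : U × Bool) : Cl inc × Cl inc := (.a ub.1 ub.2, .pe ub.1 ub.2)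
/-- the pair of a leaf -/
def lea (ub : U × Bool) : Cl inc × Cl inc := (.l ub.1 ub.2, .pe ub.1 ub.2)

/-- the vertices which are not frozen -/
def bad (M : Finset (Cl inc × Cl inc)) : Finset (U × Bool) := univ.filter (fun ub => frz ub ∉ M)

/-- toggle a pair -/
def tog (M : Finset (Cl inc × Cl inc)) (x : Cl inc × Cl inc) : Finset (Cl inc × Cl inc) :=
  if x ∈ M then M.erase x else insert x M

omit [Fintype U] [Fintype P] in
theorem tog_tog (M : Finset (Cl inc × Cl inc)) (x : Cl inc × Cl inc) : tog (tog M x) x = M := by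
  unfold tog
  by_cases h : x ∈ M
  · simp [h, Finset.insert_erase]
  · simp [h, Finset.erase_insert]

omit [Fintype U] [Fintype P] in
theorem tog_ne (M : Finset (Cl inc × Cl inc)) (x : Cl inc × Cl inc) : tog M x ≠ M := by
  unfold tog
  by_cases h : x ∈ M
  · rw [if_pos h]
    intro e
    rw [← e] at h
    simp at h
  · rw [if_neg h]
    intro e
    exact h (e ▸ Finset.mem_insert_self _ _)

omit [Fintype U] [Fintype P] in
theorem sign_tog (M : Finset (Cl inc × Cl inc)) (x : Cl inc × Cl inc) :
    (-1 : ℤ) ^ (tog M x).card = - (-1) ^ M.card := by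
  unfold tog
  by_cases h : x ∈ M
  · rw [if_pos h]
    have h1 := Finset.card_erase_add_one h
    rw [← h1, pow_succ]
    ring
  · rw [if_neg h, Finset.card_insert_of_notMem h, pow_succ]
    ring

omit [Fintype U] [Fintype P] in
theorem mem_tog_ne (M : Finset (Cl inc × Cl inc)) {x y : Cl inc × Cl inc} (h : y ≠ x) :
    y ∈ tog M x ↔ y ∈ M := by
  unfold tog
  split_ifs <;> simp [h]

omit [Fintype P] in
theorem bad_tog (M : Finset (Cl inc × Cl inc)) (ub : U × Bool) : bad (tog M (lea ub)) = bad M := by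
  unfold bad
  ext v
  simp only [Finset.mem_filter, Finset.mem_univ, true_and]
  rw [mem_tog_ne]
  simp [frz, lea]

omit [Fintype U] [Fintype P] in
theorem tog_MT {M : Finset (Cl inc × Cl inc)} (hM : MT Cv M) {ub : U × Bool}
    (hub : frz ub ∉ M) : MT Cv (tog M (lea ub)) := by
  by_cases h : lea ub ∈ M
  · have e : tog M (lea ub) = M.erase (lea ub) := if_pos h
    rw [e]
    exact ⟨fun p hp => hM.1 p (Finset.mem_of_mem_erase hp), fun p hp q hq =>
      hM.2 p (Finset.mem_of_mem_erase hp) q (Finset.mem_of_mem_erase hq)⟩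
  · have e : tog M (lea ub) = insert (lea ub) M := if_neg h
    rw [e]
    have key : ∀ q ∈ M, (lea ub).1 ≠ q.1 ∧ (lea ub).1 ≠ q.2 ∧ (lea ub).2 ≠ q.1 ∧
        (lea ub).2 ≠ q.2 := by
      intro q hq
      obtain ⟨u, b⟩ := ub
      have hc := hM.1 q hq
      obtain ⟨q1, q2⟩ := q
      simp only at hc
      cases hc with
      | a_pe u' b' =>
        refine ⟨by simp [lea], by simp [lea], by simp [lea], ?_⟩
        intro e
        simp only [lea, Cl.pe.injEq] at e
        obtain ⟨rfl, rfl⟩ := e
        exact hub hq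
      | l_pe u' b' =>
        have hne : ¬ (u = u' ∧ b = b') := by
          rintro ⟨rfl, rfl⟩
          exact h hq
        refine ⟨?_, by simp [lea], by simp [lea], ?_⟩
        · intro e; simp only [lea, Cl.l.injEq] at e; exact hne e
        · intro e; simp only [lea, Cl.pe.injEq] at e; exact hne e
      | _ => simp [lea]
    constructor
    · intro p hp
      rcases Finset.mem_insert.1 hp with rfl | hp
      · exact Cv.l_pe _ _
      · exact hM.1 p hp
    · intro p hp q hq hpq
      rcases Finset.mem_insert.1 hp with rfl | hp <;> rcases Finset.mem_insert.1 hq with rfl | hq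
      · exact absurd rfl hpq
      · exact key q hq
      · obtain ⟨h1, h2, h3, h4⟩ := key p hp
        exact ⟨h1.symm, h3.symm, h2.symm, h4.symm⟩
      · exact hM.2 p hp q hq hpq

omit [Fintype U] [Fintype P] in
theorem tog_Ac {M : Finset (Cl inc × Cl inc)} (hM : MT Cv M) (hA : Ac Cv M) {ub : U × Bool} :
    Ac Cv (tog M (lea ub)) := by
  obtain ⟨u, b⟩ := ub
  intro x hx
  by_cases h : (lea (u, b) : Cl inc × Cl inc) ∈ M
  · have e : tog M (lea (u, b)) = M.erase (lea (u, b)) := if_pos h
    rw [e] at hx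
    refine hA x (cycle_of_noOut (l := .l u b) (R' := Arr Cv (M.erase (lea (u, b)))) ?_ ?_ hx)
    · rintro y (⟨hc, _⟩ | hy)
      · cases hc
      · have hy' := Finset.mem_erase.1 hy
        have hc := hM.1 _ hy'.2
        simp only at hc
        cases hc
        exact hy'.1 rfl
    · rintro y z (⟨hc, hn⟩ | hy) hz
      · refine Or.inl ⟨hc, fun hm => hn (Finset.mem_erase.2 ⟨?_, hm⟩)⟩
        intro e
        simp only [lea, Prod.mk.injEq] at e
        exact hz e.1
      · exact Or.inr (Finset.mem_of_mem_erase hy)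
  · have e : tog M (lea (u, b)) = insert (lea (u, b)) M := if_neg h
    rw [e] at hx
    refine hA x (cycle_of_noIn (l := .l u b) (R' := Arr Cv (insert (lea (u, b)) M)) ?_ ?_ hx)
    · rintro y (⟨hc, hn⟩ | hy)
      · cases hc
        exact hn (Finset.mem_insert_self _ _)
      · rcases Finset.mem_insert.1 hy with e | hy
        · simp [lea] at e
        · have hc := hM.1 _ hy
          simp only at hc
          cases hc
    · rintro y z (⟨hc, hn⟩ | hy) hz
      · exact Or.inl ⟨hc, fun hm => hn (Finset.mem_insert_of_mem hm)⟩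
      · rcases Finset.mem_insert.1 hy with e | hy
        · simp only [lea, Prod.mk.injEq] at e
          exact absurd e.1 hz
        · exact Or.inr hy

/-! ### The rank -/

open Classical in
/-- the rank of a cell -/
noncomputable def rk (M : Finset (Cl inc × Cl inc)) : Cl inc → ℕ
  | .l _ _ => 0
  | .pe _ _ => 1
  | .a _ _ => 2
  | .p _ => 4
  | .g t b => if (Cl.p t.1.2, Cl.g t b) ∈ M then 3 else if (Cl.g t b, Cl.tt t) ∈ M then 9 else 5
  | .f _ => 7
  | .tt t => if (Cl.f t.1.1, Cl.tt t) ∈ M then 6 else 8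

omit [Fintype U] [Fintype P] [DecidableEq U] [DecidableEq P] in
theorem MT.eq1 {M : Finset (Cl inc × Cl inc)} (hM : MT Cv M) {x y z : Cl inc} (h : (x, y) ∈ M)
    (h' : (x, z) ∈ M) : y = z := by
  by_contra hne
  exact (hM.2 _ h _ h' (by simp [hne])).1 rfl

omit [Fintype U] [Fintype P] [DecidableEq U] [DecidableEq P] in
theorem MT.eq2 {M : Finset (Cl inc × Cl inc)} (hM : MT Cv M) {x y z : Cl inc} (h : (x, z) ∈ M)
    (h' : (y, z) ∈ M) : x = y := by
  by_contra hne
  exact (hM.2 _ h _ h' (by simp [hne])).2.2.2 rfl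

omit [Fintype U] [Fintype P] [DecidableEq U] [DecidableEq P] in
theorem MT.eq3 {M : Finset (Cl inc × Cl inc)} (hM : MT Cv M) {x y z : Cl inc} (h : (x, y) ∈ M)
    (h' : (y, z) ∈ M) : False := by
  by_cases e : ((x, y) : Cl inc × Cl inc) = (y, z)
  · have hc := hM.1 _ h
    simp only [Prod.mk.injEq] at e
    obtain ⟨rfl, rfl⟩ := e
    simp only at hc
    cases hc
  · exact (hM.2 _ h _ h' e).2.2.1 rfl

omit [Fintype U] [Fintype P] in
theorem rk_lt {M : Finset (Cl inc × Cl inc)} (hM : MT Cv M) (hF : ∀ ub, frz ub ∈ M) {x y : Cl inc}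
    (h : Arr Cv M x y) : rk M y < rk M x := by
  rcases h with ⟨hc, hn⟩ | h
  · cases hc with
    | a_pe u b => exact absurd (hF (u, b)) hn
    | l_pe u b => simp [rk]
    | a_f u b => simp [rk]
    | a_g t b => simp only [rk]; split_ifs <;> omega
    | p_g t b => simp only [rk]; rw [if_neg hn]; split_ifs <;> omega
    | f_t t => simp only [rk]; rw [if_neg hn]; omega
    | g_t t b =>
      simp only [rk]
      by_cases h1 : (Cl.p t.1.2, Cl.g t b) ∈ M
      · rw [if_pos h1]; split_ifs <;> omega
      · rw [if_neg h1, if_neg hn]; split_ifs <;> omega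
  · have hc := hM.1 _ h
    simp only at hc
    cases hc with
    | a_pe u b => simp [rk]
    | l_pe u b => exact absurd (hM.eq2 h (hF (u, b))) (by simp)
    | a_f u b => exact absurd (hM.eq1 h (hF (u, b))) (by simp)
    | a_g t b => exact absurd (hM.eq1 h (hF (t.1.1, b))) (by simp)
    | p_g t b => simp only [rk]; rw [if_pos h]; omega
    | f_t t => simp only [rk]; rw [if_pos h]; omega
    | g_t t b =>
      simp only [rk]
      have h1 : (Cl.p t.1.2, Cl.g t b) ∉ M := fun h1 => hM.eq3 h1 h
      have h2 : (Cl.f t.1.1, Cl.tt t) ∉ M := fun h2 => by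
        have := hM.eq2 h2 h
        simp at this
      rw [if_neg h1, if_pos h, if_neg h2]
      omega

omit [Fintype U] [Fintype P] in
theorem Ac_of_frozen {M : Finset (Cl inc × Cl inc)} (hM : MT Cv M) (hF : ∀ ub, frz ub ∈ M) :
    Ac Cv M := by
  intro x hx
  have key : ∀ y, Relation.TransGen (Arr Cv M) x y → rk M y < rk M x := by
    intro y hy
    induction hy with
    | single h => exact rk_lt hM hF h
    | tail _ h ih => exact (rk_lt hM hF h).trans ih
  exact lt_irrefl _ (key x hx)

/-! ### The signed sum -/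

open Classical in
/-- **Freezing.** -/
theorem sum_frozen :
    ∑ M ∈ (univ : Finset (Finset (Cl inc × Cl inc))).filter (fun M => MT Cv M ∧ Ac Cv M),
      (-1 : ℤ) ^ M.card =
    ∑ M ∈ (univ : Finset (Finset (Cl inc × Cl inc))).filter
      (fun M => MT Cv M ∧ ∀ ub, frz ub ∈ M), (-1 : ℤ) ^ M.card := by
  rw [← Finset.sum_filter_add_sum_filter_not _ (fun M => ∀ ub, frz ub ∈ M)]
  have h1 : ∑ M ∈ ((univ : Finset (Finset (Cl inc × Cl inc))).filter
      (fun M => MT Cv M ∧ Ac Cv M)).filter (fun M => ¬ ∀ ub, frz ub ∈ M), (-1 : ℤ) ^ M.card = 0 := by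
    have hb : ∀ M ∈ ((univ : Finset (Finset (Cl inc × Cl inc))).filter
      (fun M => MT Cv M ∧ Ac Cv M)).filter (fun M => ¬ ∀ ub, frz ub ∈ M), (bad M).Nonempty := by
      intro M hM
      rw [Finset.mem_filter] at hM
      have h := hM.2
      push Not at h
      obtain ⟨ub, hub⟩ := h
      exact ⟨ub, Finset.mem_filter.2 ⟨Finset.mem_univ _, hub⟩⟩
    let q : Finset (U × Bool) → Option (U × Bool) := fun B =>
      if h : B.Nonempty then some h.choose else none
    have hq : ∀ B : Finset (U × Bool), B.Nonempty → ∃ ub ∈ B, q B = some ub := by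
      intro B hB
      exact ⟨hB.choose, hB.choose_spec, dif_pos hB⟩
    refine Finset.sum_involution (fun M _ => (q (bad M)).elim M (fun ub => tog M (lea ub)))
      ?_ ?_ ?_ ?_
    · intro M hM
      obtain ⟨ub, _, h⟩ := hq _ (hb M hM)
      rw [h]
      simp only [Option.elim_some, sign_tog]
      ring
    · intro M hM _
      obtain ⟨ub, _, h⟩ := hq _ (hb M hM)
      rw [h]
      exact tog_ne _ _
    · intro M hM
      obtain ⟨ub, hub, h⟩ := hq _ (hb M hM)
      rw [h]
      simp only [Option.elim_some]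
      rw [Finset.mem_filter, Finset.mem_filter] at hM ⊢
      have hub' : frz ub ∉ M := (Finset.mem_filter.1 hub).2
      refine ⟨⟨Finset.mem_univ _, tog_MT hM.1.2.1 hub', tog_Ac hM.1.2.1 hM.1.2.2⟩, ?_⟩
      intro hall
      have h3 := hall ub
      rw [mem_tog_ne _ (by simp [frz, lea])] at h3
      exact hub' h3
    · intro M hM
      obtain ⟨ub, hub, h⟩ := hq _ (hb M hM)
      simp only [h, Option.elim_some, bad_tog, tog_tog]
  rw [h1, add_zero, Finset.filter_filter]
  refine Finset.sum_congr ?_ fun _ _ => rfl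
  ext M
  simp only [Finset.mem_filter, Finset.mem_univ, true_and]
  constructor
  · rintro ⟨⟨h1, _⟩, h3⟩
    exact ⟨h1, h3⟩
  · rintro ⟨h1, h3⟩
    exact ⟨⟨h1, Ac_of_frozen h1 h3⟩, h3⟩

end Pool.Agent.H269.MEP
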