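import Pool.Agent.H269.MEP.Cells

/-!
# Frozen matchings as triples of functions
-/

set_option autoImplicit false

namespace Pool.Agent.H269.MEP

open Finset

variable {U P : Type} [Fintype U] [Fintype P] [DecidableEq U] [DecidableEq P]
  {inc : U → P → Bool}

/-- the data of a frozen matching -/
abbrev Dt (U P : Type) : Type := (U → Option P) × (P → Option (U × Bool)) × (U × P → Option Bool)

/-- valid data -/
def Vd (inc : U → P → Bool) (d : Dt U P) : Prop :=
  (∀ u x, d.1 u = some x → inc u x = true) ∧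
  (∀ x u b, d.2.1 x = some (u, b) → inc u x = true) ∧
  (∀ u x b, d.2.2 (u, x) = some b → inc u x = true ∧ d.1 u ≠ some x ∧ d.2.1 x ≠ some (u, b))

/-- the pairs at the hubs -/
def M2 (d : Dt U P) : Finset (Cl inc × Cl inc) :=
  (univ.filter (fun t : Inc inc => d.1 t.1.1 = some t.1.2)).image (fun t => (Cl.f t.1.1, Cl.tt t))
/-- the pairs at the apexes -/
def M3 (d : Dt U P) : Finset (Cl inc × Cl inc) :=
  (univ.filter (fun t : Inc inc × Bool => d.2.1 t.1.1.2 = some (t.1.1.1, t.2))).image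
    (fun t => (Cl.p t.1.1.2, Cl.g t.1 t.2))
/-- the pairs at the other triangles -/
def M4 (d : Dt U P) : Finset (Cl inc × Cl inc) :=
  (univ.filter (fun t : Inc inc × Bool => d.2.2 t.1.1 = some t.2)).image
    (fun t => (Cl.g t.1 t.2, Cl.tt t.1))
/-- the frozen pairs -/
def M1 : Finset (Cl inc × Cl inc) := univ.image (fun ub : U × Bool => frz ub)

/-- the matching of the data -/
def Mt (d : Dt U P) : Finset (Cl inc × Cl inc) := M1 ∪ (M2 d ∪ (M3 d ∪ M4 d))

theorem mem_M1 (q : Cl inc × Cl inc) : q ∈ (M1 : Finset (Cl inc × Cl inc)) ↔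
    ∃ u b, q = (Cl.a u b, Cl.pe u b) := by
  unfold M1 frz
  simp only [Finset.mem_image, Finset.mem_univ, true_and, Prod.exists]
  exact ⟨fun ⟨u, b, h⟩ => ⟨u, b, h.symm⟩, fun ⟨u, b, h⟩ => ⟨u, b, h.symm⟩⟩

theorem mem_M2 (d : Dt U P) (q : Cl inc × Cl inc) : q ∈ (M2 d : Finset (Cl inc × Cl inc)) ↔
    ∃ t : Inc inc, d.1 t.1.1 = some t.1.2 ∧ q = (Cl.f t.1.1, Cl.tt t) := by
  unfold M2
  simp only [Finset.mem_image, Finset.mem_filter, Finset.mem_univ, true_and]
  exact ⟨fun ⟨t, h, e⟩ => ⟨t, h, e.symm⟩, fun ⟨t, h, e⟩ => ⟨t, h, e.symm⟩⟩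

theorem mem_M3 (d : Dt U P) (q : Cl inc × Cl inc) : q ∈ (M3 d : Finset (Cl inc × Cl inc)) ↔
    ∃ (t : Inc inc) (b : Bool), d.2.1 t.1.2 = some (t.1.1, b) ∧ q = (Cl.p t.1.2, Cl.g t b) := by
  unfold M3
  simp only [Finset.mem_image, Finset.mem_filter, Finset.mem_univ, true_and, Prod.exists]
  exact ⟨fun ⟨t, b, h, e⟩ => ⟨t, b, h, e.symm⟩, fun ⟨t, b, h, e⟩ => ⟨t, b, h, e.symm⟩⟩

theorem mem_M4 (d : Dt U P) (q : Cl inc × Cl inc) : q ∈ (M4 d : Finset (Cl inc × Cl inc)) ↔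
    ∃ (t : Inc inc) (b : Bool), d.2.2 t.1 = some b ∧ q = (Cl.g t b, Cl.tt t) := by
  unfold M4
  simp only [Finset.mem_image, Finset.mem_filter, Finset.mem_univ, true_and, Prod.exists]
  exact ⟨fun ⟨t, b, h, e⟩ => ⟨t, b, h, e.symm⟩, fun ⟨t, b, h, e⟩ => ⟨t, b, h, e.symm⟩⟩

theorem mem_Mt (d : Dt U P) (q : Cl inc × Cl inc) : q ∈ Mt d ↔
    (∃ u b, q = (Cl.a u b, Cl.pe u b)) ∨
    (∃ t : Inc inc, d.1 t.1.1 = some t.1.2 ∧ q = (Cl.f t.1.1, Cl.tt t)) ∨
    (∃ (t : Inc inc) (b : Bool), d.2.1 t.1.2 = some (t.1.1, b) ∧ q = (Cl.p t.1.2, Cl.g t b)) ∨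
    (∃ (t : Inc inc) (b : Bool), d.2.2 t.1 = some b ∧ q = (Cl.g t b, Cl.tt t)) := by
  unfold Mt
  rw [Finset.mem_union, Finset.mem_union, Finset.mem_union, mem_M1, mem_M2, mem_M3, mem_M4]

theorem Mt_MT {d : Dt U P} (hd : Vd inc d) : MT Cv (Mt d : Finset (Cl inc × Cl inc)) := by
  constructor
  · intro q hq
    rcases (mem_Mt d q).1 hq with ⟨u, b, rfl⟩ | ⟨t, _, rfl⟩ | ⟨t, b, _, rfl⟩ | ⟨t, b, _, rfl⟩
    · exact Cv.a_pe u b
    · exact Cv.f_t t
    · exact Cv.p_g t b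
    · exact Cv.g_t t b
  · intro q hq r hr hqr
    rcases (mem_Mt d q).1 hq with ⟨u, b, rfl⟩ | ⟨t, h, rfl⟩ | ⟨t, b, h, rfl⟩ | ⟨t, b, h, rfl⟩ <;>
    rcases (mem_Mt d r).1 hr with ⟨u', b', rfl⟩ | ⟨t', h', rfl⟩ | ⟨t', b', h', rfl⟩ |
      ⟨t', b', h', rfl⟩
    · simp only [ne_eq, Prod.mk.injEq, Cl.a.injEq, Cl.pe.injEq, and_self] at hqr
      simp [hqr]
    · simp
    · simp
    · simp
    · simp
    · have hne : t ≠ t' := fun e => hqr (by rw [e])
      have hu : t.1.1 ≠ t'.1.1 := by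
        intro e
        rw [e, h'] at h
        exact hne (Subtype.ext (Prod.ext e (Option.some.inj h).symm))
      simp [hne, hu]
    · simp
    · have hne : t ≠ t' := by
        rintro rfl
        exact (hd.2.2 _ _ _ h').2.1 h
      simp [hne]
    · simp
    · simp
    · have hx : t.1.2 ≠ t'.1.2 := by
        intro e
        rw [e, h'] at h
        have e2 := Option.some.inj h
        simp only [Prod.mk.injEq] at e2
        have e3 : t = t' := Subtype.ext (Prod.ext e2.1.symm e)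
        subst e3
        exact hqr (by rw [e2.2])
      have hne : t ≠ t' := fun e => hx (by rw [e])
      simp [hne, hx]
    · have hne : ¬ (t = t' ∧ b = b') := by
        rintro ⟨rfl, rfl⟩
        exact (hd.2.2 _ _ _ h').2.2 h
      refine ⟨by simp, by simp, ?_, by simp⟩
      intro e
      simp only [Cl.g.injEq] at e
      exact hne e
    · simp
    · have hne : t ≠ t' := by
        rintro rfl
        exact (hd.2.2 _ _ _ h).2.1 h'
      simp [hne]
    · have hne : ¬ (t = t' ∧ b = b') := by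
        rintro ⟨rfl, rfl⟩
        exact (hd.2.2 _ _ _ h).2.2 h'
      refine ⟨by simp, ?_, by simp, by simp⟩
      intro e
      simp only [Cl.g.injEq] at e
      exact hne e
    · have hne : t ≠ t' := by
        rintro rfl
        rw [h] at h'
        exact hqr (by rw [Option.some.inj h'])
      simp [hne]

theorem frz_mem (d : Dt U P) (ub : U × Bool) : frz ub ∈ (Mt d : Finset (Cl inc × Cl inc)) :=
  (mem_Mt d _).2 (Or.inl ⟨ub.1, ub.2, rfl⟩)

open Classical in
/-- the data of a matching -/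
noncomputable def dat (M : Finset (Cl inc × Cl inc)) : Dt U P :=
  (fun u => if h : ∃ t : Inc inc, t.1.1 = u ∧ (Cl.f u, Cl.tt t) ∈ M then some h.choose.1.2 else none,
   fun x => if h : ∃ tb : Inc inc × Bool, tb.1.1.2 = x ∧ (Cl.p x, Cl.g tb.1 tb.2) ∈ M then
     some (h.choose.1.1.1, h.choose.2) else none,
   fun ux => if h : ∃ tb : Inc inc × Bool, tb.1.1 = ux ∧ (Cl.g tb.1 tb.2, Cl.tt tb.1) ∈ M then
     some h.choose.2 else none)

theorem dat1 {M : Finset (Cl inc × Cl inc)} (hM : MT Cv M) (u : U) (x : P) :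
    (dat M).1 u = some x ↔ ∃ h : inc u x = true, (Cl.f u, Cl.tt ⟨(u, x), h⟩) ∈ M := by
  unfold dat
  simp only
  constructor
  · intro h
    split_ifs at h with h1
    have h2 := h1.choose_spec
    have h3 := Option.some.inj h
    have e : h1.choose.1 = (u, x) := Prod.ext h2.1 h3
    have hi : inc u x = true := by
      have := h1.choose.2
      rw [e] at this
      exact this
    refine ⟨hi, ?_⟩
    have e2 : h1.choose = ⟨(u, x), hi⟩ := Subtype.ext e
    rw [← e2]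
    exact h2.2
  · rintro ⟨hi, h⟩
    have h1 : ∃ t : Inc inc, t.1.1 = u ∧ (Cl.f u, Cl.tt t) ∈ M := ⟨⟨(u, x), hi⟩, rfl, h⟩
    rw [dif_pos h1]
    have h2 := h1.choose_spec
    have e := hM.eq1 h2.2 h
    rw [Cl.tt.injEq] at e
    rw [e]

theorem dat2 {M : Finset (Cl inc × Cl inc)} (hM : MT Cv M) (x : P) (u : U) (b : Bool) :
    (dat M).2.1 x = some (u, b) ↔ ∃ h : inc u x = true, (Cl.p x, Cl.g ⟨(u, x), h⟩ b) ∈ M := by
  unfold dat
  simp only
  constructor
  · intro h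
    split_ifs at h with h1
    have h2 := h1.choose_spec
    have h3 := Option.some.inj h
    simp only [Prod.mk.injEq] at h3
    have e : h1.choose.1.1 = (u, x) := Prod.ext h3.1 h2.1
    have hi : inc u x = true := by
      have := h1.choose.1.2
      rw [e] at this
      exact this
    refine ⟨hi, ?_⟩
    have e2 : h1.choose.1 = ⟨(u, x), hi⟩ := Subtype.ext e
    rw [← e2, ← h3.2]
    exact h2.2
  · rintro ⟨hi, h⟩
    have h1 : ∃ tb : Inc inc × Bool, tb.1.1.2 = x ∧ (Cl.p x, Cl.g tb.1 tb.2) ∈ M :=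
      ⟨(⟨(u, x), hi⟩, b), rfl, h⟩
    rw [dif_pos h1]
    have h2 := h1.choose_spec
    have e := hM.eq1 h2.2 h
    rw [Cl.g.injEq] at e
    rw [e.1, e.2]

theorem dat3 {M : Finset (Cl inc × Cl inc)} (hM : MT Cv M) (u : U) (x : P) (b : Bool) :
    (dat M).2.2 (u, x) = some b ↔ ∃ h : inc u x = true,
      (Cl.g ⟨(u, x), h⟩ b, Cl.tt ⟨(u, x), h⟩) ∈ M := by
  unfold dat
  simp only
  constructor
  · intro h
    split_ifs at h with h1
    have h2 := h1.choose_spec
    have h3 := Option.some.inj h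
    have hi : inc u x = true := by
      have := h1.choose.1.2
      rw [h2.1] at this
      exact this
    refine ⟨hi, ?_⟩
    have e2 : h1.choose.1 = ⟨(u, x), hi⟩ := Subtype.ext h2.1
    rw [← e2, ← h3]
    exact h2.2
  · rintro ⟨hi, h⟩
    have h1 : ∃ tb : Inc inc × Bool, tb.1.1 = (u, x) ∧ (Cl.g tb.1 tb.2, Cl.tt tb.1) ∈ M :=
      ⟨(⟨(u, x), hi⟩, b), rfl, h⟩
    rw [dif_pos h1]
    have h2 := h1.choose_spec
    have e2 : h1.choose.1 = ⟨(u, x), hi⟩ := Subtype.ext h2.1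
    have h3 : (Cl.g ⟨(u, x), hi⟩ h1.choose.2, Cl.tt ⟨(u, x), hi⟩) ∈ M := by
      have := h2.2
      rw [e2] at this
      exact this
    have e := hM.eq2 h3 h
    rw [Cl.g.injEq] at e
    rw [e.2]

theorem Vd_dat {M : Finset (Cl inc × Cl inc)} (hM : MT Cv M) : Vd inc (dat M) := by
  refine ⟨fun u x h => ((dat1 hM u x).1 h).1, fun x u b h => ((dat2 hM x u b).1 h).1,
    fun u x b h => ?_⟩
  obtain ⟨hi, h⟩ := (dat3 hM u x b).1 h
  refine ⟨hi, fun h1 => ?_, fun h1 => ?_⟩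
  · obtain ⟨_, h1⟩ := (dat1 hM u x).1 h1
    exact absurd (hM.eq2 h1 h) (by simp)
  · obtain ⟨_, h1⟩ := (dat2 hM x u b).1 h1
    exact hM.eq3 h1 h

theorem Mt_dat {M : Finset (Cl inc × Cl inc)} (hM : MT Cv M) (hF : ∀ ub, frz ub ∈ M) :
    Mt (dat M) = M := by
  ext q
  rw [mem_Mt]
  constructor
  · rintro (⟨u, b, rfl⟩ | ⟨t, h, rfl⟩ | ⟨t, b, h, rfl⟩ | ⟨t, b, h, rfl⟩)
    · exact hF (u, b)
    · exact ((dat1 hM _ _).1 h).2
    · exact ((dat2 hM _ _ _).1 h).2
    · exact ((dat3 hM _ _ _).1 h).2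
  · intro hq
    obtain ⟨x, y⟩ := q
    have hc := hM.1 _ hq
    simp only at hc
    cases hc with
    | a_pe u b => exact Or.inl ⟨u, b, rfl⟩
    | l_pe u b => exact absurd (hM.eq2 hq (hF (u, b))) (by simp)
    | a_f u b => exact absurd (hM.eq1 hq (hF (u, b))) (by simp)
    | a_g t b => exact absurd (hM.eq1 hq (hF (t.1.1, b))) (by simp)
    | p_g t b => exact Or.inr (Or.inr (Or.inl ⟨t, b, (dat2 hM _ _ _).2 ⟨t.2, hq⟩, rfl⟩))
    | f_t t => exact Or.inr (Or.inl ⟨t, (dat1 hM _ _).2 ⟨t.2, hq⟩, rfl⟩)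
    | g_t t b => exact Or.inr (Or.inr (Or.inr ⟨t, b, (dat3 hM _ _ _).2 ⟨t.2, hq⟩, rfl⟩))

theorem opt_ext {α : Type} {o o' : Option α} (h : ∀ a, o = some a ↔ o' = some a) : o = o' := by
  cases o with
  | none =>
    cases o' with
    | none => rfl
    | some a => exact absurd ((h a).2 rfl) (by simp)
  | some a => exact ((h a).1 rfl).symm

theorem dat_Mt {d : Dt U P} (hd : Vd inc d) : dat (Mt d : Finset (Cl inc × Cl inc)) = d := by
  have hM : MT Cv (Mt d : Finset (Cl inc × Cl inc)) := Mt_MT hd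
  refine Prod.ext (funext fun u => opt_ext fun x => ?_) (Prod.ext (funext fun x =>
    opt_ext fun ub => ?_) (funext fun ux => opt_ext fun b => ?_))
  · rw [dat1 hM]
    constructor
    · rintro ⟨hi, h⟩
      rw [mem_Mt] at h
      rcases h with ⟨u', b', e⟩ | ⟨t, h, e⟩ | ⟨t, b, h, e⟩ | ⟨t, b, h, e⟩
      · simp at e
      · simp only [Prod.mk.injEq, Cl.f.injEq, Cl.tt.injEq] at e
        obtain ⟨e1, e2⟩ := e
        subst e2
        exact h
      · simp at e
      · simp at e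
    · intro h
      refine ⟨hd.1 u x h, (mem_Mt d _).2 (Or.inr (Or.inl ⟨⟨(u, x), hd.1 u x h⟩, h, rfl⟩))⟩
  · obtain ⟨u, b⟩ := ub
    rw [dat2 hM]
    constructor
    · rintro ⟨hi, h⟩
      rw [mem_Mt] at h
      rcases h with ⟨u', b', e⟩ | ⟨t, h, e⟩ | ⟨t, b', h, e⟩ | ⟨t, b', h, e⟩
      · simp at e
      · simp at e
      · simp only [Prod.mk.injEq, Cl.p.injEq, Cl.g.injEq] at e
        obtain ⟨e1, e2, e3⟩ := e
        subst e2 e3
        exact h
      · simp at e
    · intro h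
      refine ⟨hd.2.1 x u b h, (mem_Mt d _).2 (Or.inr (Or.inr (Or.inl
        ⟨⟨(u, x), hd.2.1 x u b h⟩, b, h, rfl⟩)))⟩
  · obtain ⟨u, x⟩ := ux
    rw [dat3 hM]
    constructor
    · rintro ⟨hi, h⟩
      rw [mem_Mt] at h
      rcases h with ⟨u', b', e⟩ | ⟨t, h, e⟩ | ⟨t, b', h, e⟩ | ⟨t, b', h, e⟩
      · simp at e
      · simp at e
      · simp at e
      · simp only [Prod.mk.injEq, Cl.tt.injEq, Cl.g.injEq] at e
        obtain ⟨⟨e1, e2⟩, e3⟩ := e
        subst e1 e2
        exact h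
    · intro h
      refine ⟨(hd.2.2 u x b h).1, (mem_Mt d _).2 (Or.inr (Or.inr (Or.inr
        ⟨⟨(u, x), (hd.2.2 u x b h).1⟩, b, h, rfl⟩)))⟩

/-! ### The size of the matching -/

theorem card_M1 : (M1 : Finset (Cl inc × Cl inc)).card = Fintype.card (U × Bool) := by
  unfold M1
  rw [Finset.card_image_of_injective, Finset.card_univ]
  intro x y h
  simp only [frz, Prod.mk.injEq, Cl.a.injEq] at h
  exact Prod.ext h.1.1 h.1.2

theorem card_M2 {d : Dt U P} (hd : Vd inc d) : (M2 d : Finset (Cl inc × Cl inc)).card =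
    (univ.filter (fun u : U => d.1 u ≠ none)).card := by
  unfold M2
  rw [Finset.card_image_of_injective _ (by
    intro x y h
    simp only [Prod.mk.injEq, Cl.tt.injEq] at h
    exact h.2)]
  refine Finset.card_bij (fun t _ => t.1.1) ?_ ?_ ?_
  · intro t ht
    rw [Finset.mem_filter] at ht ⊢
    exact ⟨Finset.mem_univ _, by rw [ht.2]; simp⟩
  · intro t ht t' ht' e
    rw [Finset.mem_filter] at ht ht'
    have h1 := ht.2
    rw [e, ht'.2] at h1
    exact Subtype.ext (Prod.ext e (Option.some.inj h1).symm)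
  · intro u hu
    rw [Finset.mem_filter] at hu
    obtain ⟨x, hx⟩ := Option.ne_none_iff_exists'.1 hu.2
    exact ⟨⟨(u, x), hd.1 u x hx⟩, Finset.mem_filter.2 ⟨Finset.mem_univ _, hx⟩, rfl⟩

theorem card_M3 {d : Dt U P} (hd : Vd inc d) : (M3 d : Finset (Cl inc × Cl inc)).card =
    (univ.filter (fun x : P => d.2.1 x ≠ none)).card := by
  unfold M3
  rw [Finset.card_image_of_injective _ (by
    intro x y h
    simp only [Prod.mk.injEq, Cl.g.injEq] at h
    exact Prod.ext h.2.1 h.2.2)]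
  refine Finset.card_bij (fun t _ => t.1.1.2) ?_ ?_ ?_
  · intro t ht
    rw [Finset.mem_filter] at ht ⊢
    exact ⟨Finset.mem_univ _, by rw [ht.2]; simp⟩
  · intro t ht t' ht' e
    rw [Finset.mem_filter] at ht ht'
    have h1 := ht.2
    rw [e, ht'.2] at h1
    have h2 := Option.some.inj h1
    simp only [Prod.mk.injEq] at h2
    exact Prod.ext (Subtype.ext (Prod.ext h2.1.symm e)) h2.2.symm
  · intro x hx
    rw [Finset.mem_filter] at hx
    obtain ⟨⟨u, b⟩, hu⟩ := Option.ne_none_iff_exists'.1 hx.2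
    exact ⟨(⟨(u, x), hd.2.1 x u b hu⟩, b), Finset.mem_filter.2 ⟨Finset.mem_univ _, hu⟩, rfl⟩

theorem card_M4 {d : Dt U P} (hd : Vd inc d) : (M4 d : Finset (Cl inc × Cl inc)).card =
    (univ.filter (fun ux : U × P => d.2.2 ux ≠ none)).card := by
  unfold M4
  rw [Finset.card_image_of_injective _ (by
    intro x y h
    simp only [Prod.mk.injEq, Cl.g.injEq] at h
    exact Prod.ext h.1.1 h.1.2)]
  refine Finset.card_bij (fun t _ => t.1.1) ?_ ?_ ?_
  · intro t ht
    rw [Finset.mem_filter] at ht ⊢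
    exact ⟨Finset.mem_univ _, by rw [ht.2]; simp⟩
  · intro t ht t' ht' e
    rw [Finset.mem_filter] at ht ht'
    have h1 := ht.2
    rw [e, ht'.2] at h1
    exact Prod.ext (Subtype.ext e) (Option.some.inj h1).symm
  · intro ux hux
    rw [Finset.mem_filter] at hux
    obtain ⟨b, hb⟩ := Option.ne_none_iff_exists'.1 hux.2
    exact ⟨(⟨ux, (hd.2.2 ux.1 ux.2 b hb).1⟩, b), Finset.mem_filter.2 ⟨Finset.mem_univ _, hb⟩, rfl⟩

theorem card_Mt {d : Dt U P} (hd : Vd inc d) : (Mt d : Finset (Cl inc × Cl inc)).card =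
    2 * Fintype.card U + ((univ.filter (fun u : U => d.1 u ≠ none)).card +
      ((univ.filter (fun x : P => d.2.1 x ≠ none)).card +
      (univ.filter (fun ux : U × P => d.2.2 ux ≠ none)).card)) := by
  unfold Mt
  have h1 : Disjoint (M1 : Finset (Cl inc × Cl inc)) (M2 d ∪ (M3 d ∪ M4 d)) := by
    rw [Finset.disjoint_left]
    intro q hq hq'
    rw [Finset.mem_union, Finset.mem_union, mem_M2, mem_M3, mem_M4] at hq'
    obtain ⟨u, b, rfl⟩ := (mem_M1 q).1 hq
    simp at hq'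
  have h2 : Disjoint (M2 d : Finset (Cl inc × Cl inc)) (M3 d ∪ M4 d) := by
    rw [Finset.disjoint_left]
    intro q hq hq'
    rw [Finset.mem_union, mem_M3, mem_M4] at hq'
    obtain ⟨t, _, rfl⟩ := (mem_M2 d q).1 hq
    simp at hq'
  have h3 : Disjoint (M3 d : Finset (Cl inc × Cl inc)) (M4 d) := by
    rw [Finset.disjoint_left]
    intro q hq hq'
    rw [mem_M4] at hq'
    obtain ⟨t, b, _, rfl⟩ := (mem_M3 d q).1 hq
    simp at hq'
  rw [Finset.card_union_of_disjoint h1, Finset.card_union_of_disjoint h2,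
    Finset.card_union_of_disjoint h3, card_M1, card_M2 hd, card_M3 hd, card_M4 hd,
    Fintype.card_prod, Fintype.card_bool, mul_comm]

open Classical in
/-- **The signed sum over frozen matchings as a sum over data.** -/
theorem sum_data :
    ∑ M ∈ (univ : Finset (Finset (Cl inc × Cl inc))).filter
      (fun M => MT Cv M ∧ ∀ ub, frz ub ∈ M), (-1 : ℤ) ^ M.card =
    ∑ d ∈ (univ : Finset (Dt U P)).filter (fun d => Vd inc d),
      (-1 : ℤ) ^ ((univ.filter (fun u : U => d.1 u ≠ none)).card +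
      ((univ.filter (fun x : P => d.2.1 x ≠ none)).card +
      (univ.filter (fun ux : U × P => d.2.2 ux ≠ none)).card)) := by
  symm
  refine Finset.sum_nbij' (fun d => Mt d) (fun M => dat M) ?_ ?_ ?_ ?_ ?_
  · intro d hd
    rw [Finset.mem_filter] at hd ⊢
    exact ⟨Finset.mem_univ _, Mt_MT hd.2, frz_mem d⟩
  · intro M hM
    rw [Finset.mem_filter] at hM ⊢
    exact ⟨Finset.mem_univ _, Vd_dat hM.2.1⟩
  · intro d hd
    rw [Finset.mem_filter] at hd
    exact dat_Mt hd.2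
  · intro M hM
    rw [Finset.mem_filter] at hM
    exact Mt_dat hM.2.1 hM.2.2
  · intro d hd
    rw [Finset.mem_filter] at hd
    rw [card_Mt hd.2, pow_add _ (2 * _), pow_mul]
    norm_num

end Pool.Agent.H269.MEP
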