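import Mathlib

/-!
# The Morse ensemble polynomial of a simplicial complex of dimension at most two
-/

set_option autoImplicit false

namespace Pool.Agent.H269.MEP

open Finset

/-- The set of the simplices listed in `K`; a simplex is given by the list of its vertices. -/
def cells (K : List (List ℕ)) : Finset (Finset ℕ) := (K.map List.toFinset).toFinset

/-- `K` is the list of all simplices of a simplicial complex of dimension at most two. -/
def IsComplex (K : List (List ℕ)) : Prop :=
  ∀ s ∈ cells K, s.Nonempty ∧ s.card ≤ 3 ∧ ∀ t, t ⊆ s → t.Nonempty → t ∈ cells K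

/-- The covering pairs of the face poset. -/
def Cov (C : Finset (Finset ℕ)) (σ τ : Finset ℕ) : Prop :=
  σ ∈ C ∧ τ ∈ C ∧ σ ⊂ τ ∧ τ.card = σ.card + 1

/-- A set of covering pairs such that every simplex lies in at most one pair. -/
def IsMatching (C : Finset (Finset ℕ)) (M : Finset (Finset ℕ × Finset ℕ)) : Prop :=
  (∀ p ∈ M, Cov C p.1 p.2) ∧
    ∀ p ∈ M, ∀ q ∈ M, p ≠ q → p.1 ≠ q.1 ∧ p.1 ≠ q.2 ∧ p.2 ≠ q.1 ∧ p.2 ≠ q.2

/-- The arrows of the Hasse diagram, directed downward, with the edges of `M` reversed. -/
def Arrow (C : Finset (Finset ℕ)) (M : Finset (Finset ℕ × Finset ℕ)) (x y : Finset ℕ) : Prop :=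
  (Cov C y x ∧ (y, x) ∉ M) ∨ (x, y) ∈ M

/-- There is no directed cycle. -/
def IsAcyclic (C : Finset (Finset ℕ)) (M : Finset (Finset ℕ × Finset ℕ)) : Prop :=
  ∀ x, ¬ Relation.TransGen (Arrow C M) x x

open Classical in
/-- The set of all acyclic matchings. -/
noncomputable def matchings (C : Finset (Finset ℕ)) : Finset (Finset (Finset ℕ × Finset ℕ)) :=
  (C ×ˢ C).powerset.filter (fun M => IsMatching C M ∧ IsAcyclic C M)

open Classical in
/-- The number of critical `i`-simplices. -/
noncomputable def crit (C : Finset (Finset ℕ)) (M : Finset (Finset ℕ × Finset ℕ)) (i : ℕ) : ℕ :=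
  (C.filter (fun σ => σ.card = i + 1 ∧ ∀ p ∈ M, p.1 ≠ σ ∧ p.2 ≠ σ)).card

/-- The coefficient of `z₀^a z₁^b z₂^c` in the Morse ensemble polynomial. -/
noncomputable def coef (C : Finset (Finset ℕ)) (a b c : ℕ) : ℕ :=
  ((matchings C).filter (fun M => crit C M 0 = a ∧ crit C M 1 = b ∧ crit C M 2 = c)).card

/-- The Morse ensemble polynomial of the complex with the simplices listed in `K`: the list of
the monomials with nonzero coefficient, given by their exponents, together with the
coefficients. -/
noncomputable def ME (K : List (List ℕ)) : List ((ℕ × ℕ × ℕ) × ℕ) :=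
  ((List.range ((cells K).card + 1)).flatMap fun a =>
    (List.range ((cells K).card + 1)).flatMap fun b =>
      (List.range ((cells K).card + 1)).map fun c =>
        ((a, b, c), coef (cells K) a b c)).filter fun q => decide (q.2 ≠ 0)

end Pool.Agent.H269.MEP
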