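import Pool.Agent.H269.MEP.Trans
import Pool.Agent.H549R2.NRed

/-!
# The complex of a matrix
-/

set_option autoImplicit false

namespace Pool.Agent.H269.MEP

open Finset
open Pool.Agent.H549R2.Convex (ent F F_eq_card)

/-! ### Vertices -/

/-- names of vertices -/
def cd (k i j : ℕ) : ℕ := Nat.pair k (Nat.pair i j)

theorem cd_inj {k i j k' i' j' : ℕ} : cd k i j = cd k' i' j' ↔ k = k' ∧ i = i' ∧ j = j' := by
  unfold cd
  rw [Nat.pair_eq_pair, Nat.pair_eq_pair]

/-- vertices -/
abbrev Vt (n : ℕ) : Type := (Fin n × Bool) ⊕ (Fin n × Bool) ⊕ Ap n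

/-- the number of a vertex -/
def vc {n : ℕ} : Vt n → ℕ
  | .inl (i, b) => cd (bif b then 1 else 0) i.val 0
  | .inr (.inl (i, b)) => cd (bif b then 3 else 2) i.val 0
  | .inr (.inr (.inl j)) => cd 4 j.val 0
  | .inr (.inr (.inr (i, some j))) => cd 5 i.val j.val
  | .inr (.inr (.inr (i, none))) => cd 6 i.val 0

theorem vc_inj {n : ℕ} : Function.Injective (vc (n := n)) := by
  rintro (⟨i, b⟩ | ⟨i, b⟩ | j | ⟨i, _ | j⟩) (⟨i', b'⟩ | ⟨i', b'⟩ | j' | ⟨i', _ | j'⟩) h <;>
    simp only [vc, cd_inj, Fin.val_inj] at h <;> (try cases b) <;> (try cases b') <;>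
    simp_all

variable {n : ℕ} {A : Fin n → Fin n → Bool}

/-- the vertices of a cell -/
def rv : Cl (ic A) → Finset (Vt n)
  | .a u b => {.inl (u, b)}
  | .l u b => {.inr (.inl (u, b))}
  | .p x => {.inr (.inr x)}
  | .pe u b => {.inl (u, b), .inr (.inl (u, b))}
  | .f u => {.inl (u, false), .inl (u, true)}
  | .g t b => {.inr (.inr t.1.2), .inl (t.1.1, b)}
  | .tt t => {.inr (.inr t.1.2), .inl (t.1.1, false), .inl (t.1.1, true)}

/-- the number of vertices of a cell -/
def dm : Cl (ic A) → ℕ
  | .a _ _ => 1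
  | .l _ _ => 1
  | .p _ => 1
  | .pe _ _ => 2
  | .f _ => 2
  | .g _ _ => 2
  | .tt _ => 3

theorem card_rv (x : Cl (ic A)) : (rv x).card = dm x := by
  cases x with
  | a u b => rfl
  | l u b => rfl
  | p x => rfl
  | pe u b => exact Finset.card_pair (by simp)
  | f u => exact Finset.card_pair (by simp)
  | g t b => exact Finset.card_pair (by simp)
  | tt t =>
    unfold rv dm
    rw [Finset.card_insert_of_notMem (by simp), Finset.card_pair (by simp)]

theorem cv_of_sub {x y : Cl (ic A)} (h : rv x ⊆ rv y) (hd : dm y = dm x + 1) : Cv x y := by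
  cases x <;> cases y <;> simp only [dm] at hd <;> (try omega)
  · rename_i u b u' b'
    have h1 := h (Finset.mem_singleton_self _)
    simp only [rv, Finset.mem_insert, Finset.mem_singleton, Sum.inl.injEq, Prod.mk.injEq,
      reduceCtorEq, or_false] at h1
    obtain ⟨rfl, rfl⟩ := h1
    exact Cv.a_pe _ _
  · rename_i u b u'
    have h1 := h (Finset.mem_singleton_self _)
    simp only [rv, Finset.mem_insert, Finset.mem_singleton, Sum.inl.injEq, Prod.mk.injEq] at h1
    have h2 : u = u' := by rcases h1 with h1 | h1 <;> exact h1.1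
    subst h2
    exact Cv.a_f _ _
  · rename_i u b t b'
    have h1 := h (Finset.mem_singleton_self _)
    simp only [rv, Finset.mem_insert, Finset.mem_singleton, Sum.inl.injEq, Prod.mk.injEq,
      reduceCtorEq, false_or] at h1
    obtain ⟨rfl, rfl⟩ := h1
    exact Cv.a_g _ _
  · rename_i u b u' b'
    have h1 := h (Finset.mem_singleton_self _)
    simp only [rv, Finset.mem_insert, Finset.mem_singleton, Sum.inl.injEq, Sum.inr.injEq,
      Prod.mk.injEq, reduceCtorEq, false_or] at h1
    obtain ⟨rfl, rfl⟩ := h1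
    exact Cv.l_pe _ _
  · have h1 := h (Finset.mem_singleton_self _)
    simp [rv] at h1
  · have h1 := h (Finset.mem_singleton_self _)
    simp [rv] at h1
  · have h1 := h (Finset.mem_singleton_self _)
    simp [rv] at h1
  · have h1 := h (Finset.mem_singleton_self _)
    simp [rv] at h1
  · rename_i x t b
    have h1 := h (Finset.mem_singleton_self _)
    simp only [rv, Finset.mem_insert, Finset.mem_singleton, Sum.inr.injEq, reduceCtorEq,
      or_false] at h1
    subst h1
    exact Cv.p_g _ _
  · rename_i u b t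
    have h1 := h (show (Sum.inr (Sum.inl (u, b)) : Vt n) ∈ rv (.pe u b) by simp [rv])
    simp [rv] at h1
  · rename_i u t
    have h1 := h (show (Sum.inl (u, false) : Vt n) ∈ rv (.f u) by simp [rv])
    simp only [rv, Finset.mem_insert, Finset.mem_singleton, Sum.inl.injEq, Prod.mk.injEq,
      reduceCtorEq, false_or, and_true, and_false, or_false] at h1
    subst h1
    exact Cv.f_t _
  · rename_i t b t'
    have h1 := h (show (Sum.inr (Sum.inr t.1.2) : Vt n) ∈ rv (.g t b) by simp [rv])
    have h2 := h (show (Sum.inl (t.1.1, b) : Vt n) ∈ rv (.g t b) by simp [rv])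
    simp only [rv, Finset.mem_insert, Finset.mem_singleton, Sum.inr.injEq, reduceCtorEq,
      or_false] at h1
    simp only [rv, Finset.mem_insert, Finset.mem_singleton, Sum.inl.injEq, Prod.mk.injEq,
      reduceCtorEq, false_or] at h2
    have h3 : t.1.1 = t'.1.1 := by rcases h2 with h2 | h2 <;> exact h2.1
    have h4 : t = t' := Subtype.ext (Prod.ext h3 h1)
    subst h4
    exact Cv.g_t _ _

theorem sub_of_cv {x y : Cl (ic A)} (h : Cv x y) : rv x ⊆ rv y ∧ dm y = dm x + 1 := by
  cases h with
  | a_pe u b => exact ⟨by simp [rv], rfl⟩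
  | l_pe u b => exact ⟨by simp [rv], rfl⟩
  | a_f u b => exact ⟨by cases b <;> simp [rv], rfl⟩
  | a_g t b => exact ⟨by simp [rv], rfl⟩
  | p_g t b => exact ⟨by simp [rv], rfl⟩
  | f_t t => exact ⟨by simp [rv], rfl⟩
  | g_t t b =>
    refine ⟨?_, rfl⟩
    unfold rv
    rw [Finset.insert_subset_iff]
    refine ⟨Finset.mem_insert_self _ _, ?_⟩
    rw [Finset.singleton_subset_iff]
    cases b <;> simp

theorem rv_inj {x y : Cl (ic A)} (h : rv x = rv y) : x = y := by
  have hd : dm x = dm y := by rw [← card_rv, ← card_rv, h]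
  have hm : ∀ v, v ∈ rv x ↔ v ∈ rv y := fun v => by rw [h]
  cases x <;> cases y <;> simp only [dm] at hd <;> (try omega)
  · rename_i u b u' b'
    have h1 := (hm (.inl (u, b))).1 (by simp [rv])
    simp only [rv, Finset.mem_singleton, Sum.inl.injEq, Prod.mk.injEq] at h1
    rw [h1.1, h1.2]
  · rename_i u b u' b'
    have h1 := (hm (.inl (u, b))).1 (by simp [rv])
    simp [rv] at h1
  · rename_i u b x
    have h1 := (hm (.inl (u, b))).1 (by simp [rv])
    simp [rv] at h1
  · rename_i u b u' b'
    have h1 := (hm (.inr (.inl (u, b)))).1 (by simp [rv])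
    simp [rv] at h1
  · rename_i u b u' b'
    have h1 := (hm (.inr (.inl (u, b)))).1 (by simp [rv])
    simp only [rv, Finset.mem_singleton, Sum.inl.injEq, Sum.inr.injEq, Prod.mk.injEq] at h1
    rw [h1.1, h1.2]
  · rename_i u b x
    have h1 := (hm (.inr (.inl (u, b)))).1 (by simp [rv])
    simp [rv] at h1
  · rename_i x u b
    have h1 := (hm (.inr (.inr x))).1 (by simp [rv])
    simp [rv] at h1
  · rename_i x u b
    have h1 := (hm (.inr (.inr x))).1 (by simp [rv])
    simp [rv] at h1
  · rename_i x x'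
    have h1 := (hm (.inr (.inr x))).1 (by simp [rv])
    simp only [rv, Finset.mem_singleton, Sum.inr.injEq] at h1
    rw [h1]
  · rename_i u b u' b'
    have h1 := (hm (.inl (u, b))).1 (by simp [rv])
    simp only [rv, Finset.mem_insert, Finset.mem_singleton, Sum.inl.injEq, Prod.mk.injEq,
      reduceCtorEq, or_false] at h1
    rw [h1.1, h1.2]
  · rename_i u b u'
    have h1 := (hm (.inr (.inl (u, b)))).1 (by simp [rv])
    simp [rv] at h1
  · rename_i u b t b'
    have h1 := (hm (.inr (.inl (u, b)))).1 (by simp [rv])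
    simp [rv] at h1
  · rename_i u u' b'
    have h1 := (hm (.inr (.inl (u', b')))).2 (by simp [rv])
    simp [rv] at h1
  · rename_i u u'
    have h1 := (hm (.inl (u, false))).1 (by simp [rv])
    simp only [rv, Finset.mem_insert, Finset.mem_singleton, Sum.inl.injEq, Prod.mk.injEq,
      reduceCtorEq, and_true, and_false, or_false] at h1
    rw [h1]
  · rename_i u t b
    have h1 := (hm (.inr (.inr t.1.2))).2 (by simp [rv])
    simp [rv] at h1
  · rename_i t b u' b'
    have h1 := (hm (.inr (.inr t.1.2))).1 (by simp [rv])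
    simp [rv] at h1
  · rename_i t b u'
    have h1 := (hm (.inr (.inr t.1.2))).1 (by simp [rv])
    simp [rv] at h1
  · rename_i t b t' b'
    have h1 := (hm (.inr (.inr t.1.2))).1 (by simp [rv])
    have h2 := (hm (.inl (t.1.1, b))).1 (by simp [rv])
    simp only [rv, Finset.mem_insert, Finset.mem_singleton, Sum.inr.injEq, reduceCtorEq,
      or_false] at h1
    simp only [rv, Finset.mem_insert, Finset.mem_singleton, Sum.inl.injEq, Prod.mk.injEq,
      reduceCtorEq, false_or] at h2
    have h4 : t = t' := Subtype.ext (Prod.ext h2.1 h1)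
    rw [h4, h2.2]
  · rename_i t t'
    have h1 := (hm (.inr (.inr t.1.2))).1 (by simp [rv])
    have h2 := (hm (.inl (t.1.1, false))).1 (by simp [rv])
    simp only [rv, Finset.mem_insert, Finset.mem_singleton, Sum.inr.injEq, reduceCtorEq,
      or_false] at h1
    simp only [rv, Finset.mem_insert, Finset.mem_singleton, Sum.inl.injEq, Prod.mk.injEq,
      reduceCtorEq, false_or, and_true, and_false, or_false] at h2
    have h4 : t = t' := Subtype.ext (Prod.ext h2 h1)
    rw [h4]

/-- the simplex of a cell -/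
def real (x : Cl (ic A)) : Finset ℕ := (rv x).map ⟨vc, vc_inj⟩

theorem real_inj : Function.Injective (real (A := A)) := fun _ _ h =>
  rv_inj (Finset.map_injective _ h)

theorem card_real (x : Cl (ic A)) : (real x).card = dm x := by
  unfold real
  rw [Finset.card_map, card_rv]

theorem cov_real {D : Finset (Finset ℕ)} (hD : ∀ s, s ∈ D ↔ ∃ x : Cl (ic A), real x = s)
    (x y : Cl (ic A)) : Cov D (real x) (real y) ↔ Cv x y := by
  constructor
  · rintro ⟨_, _, h3, h4⟩
    rw [card_real, card_real] at h4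
    exact cv_of_sub (Finset.map_subset_map.1 h3.1) h4
  · intro h
    obtain ⟨h1, h2⟩ := sub_of_cv h
    refine ⟨(hD _).2 ⟨x, rfl⟩, (hD _).2 ⟨y, rfl⟩, ?_, ?_⟩
    · have h3 : real x ⊆ real y := Finset.map_subset_map.2 h1
      refine Finset.ssubset_iff_subset_ne.2 ⟨h3, fun e => ?_⟩
      have := congrArg Finset.card e
      rw [card_real, card_real] at this
      omega
    · rw [card_real, card_real, h2]

/-! ### Faces -/

theorem sub_pair {α : Type} [DecidableEq α] {a b : α} {t : Finset α} (h : t ⊆ {a, b})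
    (hne : t.Nonempty) : t = {a} ∨ t = {b} ∨ t = {a, b} := by
  by_cases ha : a ∈ t <;> by_cases hb : b ∈ t
  · refine Or.inr (Or.inr (h.antisymm ?_))
    intro x hx
    simp only [Finset.mem_insert, Finset.mem_singleton] at hx
    rcases hx with rfl | rfl <;> assumption
  · refine Or.inl (Finset.Subset.antisymm ?_ (Finset.singleton_subset_iff.2 ha))
    intro x hx
    have := h hx
    simp only [Finset.mem_insert, Finset.mem_singleton] at this ⊢
    rcases this with rfl | rfl
    · rfl
    · exact absurd hx hb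
  · refine Or.inr (Or.inl (Finset.Subset.antisymm ?_ (Finset.singleton_subset_iff.2 hb)))
    intro x hx
    have := h hx
    simp only [Finset.mem_insert, Finset.mem_singleton] at this ⊢
    rcases this with rfl | rfl
    · exact absurd hx ha
    · rfl
  · obtain ⟨x, hx⟩ := hne
    have := h hx
    simp only [Finset.mem_insert, Finset.mem_singleton] at this
    rcases this with rfl | rfl
    · exact absurd hx ha
    · exact absurd hx hb

theorem faces (x : Cl (ic A)) (t : Finset (Vt n)) (ht : t ⊆ rv x) (hne : t.Nonempty) :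
    ∃ y : Cl (ic A), rv y = t := by
  cases x with
  | a u b => exact ⟨.a u b, ((Finset.subset_singleton_iff.1 ht).resolve_left hne.ne_empty).symm⟩
  | l u b => exact ⟨.l u b, ((Finset.subset_singleton_iff.1 ht).resolve_left hne.ne_empty).symm⟩
  | p x => exact ⟨.p x, ((Finset.subset_singleton_iff.1 ht).resolve_left hne.ne_empty).symm⟩
  | pe u b =>
    rcases sub_pair ht hne with rfl | rfl | rfl
    · exact ⟨.a u b, rfl⟩
    · exact ⟨.l u b, rfl⟩
    · exact ⟨.pe u b, rfl⟩
  | f u =>
    rcases sub_pair ht hne with rfl | rfl | rfl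
    · exact ⟨.a u false, rfl⟩
    · exact ⟨.a u true, rfl⟩
    · exact ⟨.f u, rfl⟩
  | g s b =>
    rcases sub_pair ht hne with rfl | rfl | rfl
    · exact ⟨.p s.1.2, rfl⟩
    · exact ⟨.a s.1.1 b, rfl⟩
    · exact ⟨.g s b, rfl⟩
  | tt s =>
    have h1 : t.erase (.inr (.inr s.1.2)) ⊆ {.inl (s.1.1, false), .inl (s.1.1, true)} :=
      Finset.subset_insert_iff.1 ht
    by_cases hp : (.inr (.inr s.1.2) : Vt n) ∈ t
    · by_cases h2 : (t.erase (.inr (.inr s.1.2))).Nonempty
      · have h3 := Finset.insert_erase hp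
        rcases sub_pair h1 h2 with h4 | h4 | h4
        · exact ⟨.g s false, by rw [← h3, h4]; rfl⟩
        · exact ⟨.g s true, by rw [← h3, h4]; rfl⟩
        · exact ⟨.tt s, by rw [← h3, h4]; rfl⟩
      · have h3 := Finset.insert_erase hp
        rw [Finset.not_nonempty_iff_eq_empty.1 h2] at h3
        exact ⟨.p s.1.2, by rw [← h3]; rfl⟩
    · rw [Finset.erase_eq_of_notMem hp] at h1
      rcases sub_pair h1 hne with rfl | rfl | rfl
      · exact ⟨.a s.1.1 false, rfl⟩
      · exact ⟨.a s.1.1 true, rfl⟩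
      · exact ⟨.f s.1.1, rfl⟩

theorem dm_le (x : Cl (ic A)) : dm x ≤ 3 := by cases x <;> simp [dm]

theorem rv_ne (x : Cl (ic A)) : (rv x).Nonempty := by
  cases x <;> simp [rv]

theorem complex_of {K : List (List ℕ)} (hD : ∀ s, s ∈ cells K ↔ ∃ x : Cl (ic A), real x = s) :
    IsComplex K := by
  intro s hs
  obtain ⟨x, rfl⟩ := (hD s).1 hs
  refine ⟨(rv_ne x).map, by rw [card_real]; exact dm_le x, ?_⟩
  intro t ht hne
  obtain ⟨t', ht', rfl⟩ := Finset.subset_map_iff.1 ht
  obtain ⟨y, rfl⟩ := faces x t' ht' (Finset.map_nonempty.1 hne)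
  exact (hD _).2 ⟨y, rfl⟩

/-! ### The list of simplices -/

/-- the simplices which belong to every hub -/
def bas (i : ℕ) : List (List ℕ) :=
  [[cd 0 i 0], [cd 1 i 0], [cd 2 i 0], [cd 3 i 0], [cd 6 i 0], [cd 4 i 0],
    [cd 0 i 0, cd 2 i 0], [cd 1 i 0, cd 3 i 0], [cd 0 i 0, cd 1 i 0]]

/-- the apexes of a hub -/
def apx (A : List (List Bool)) (i : ℕ) : List ℕ :=
  cd 6 i 0 :: (List.range A.length).flatMap
    (fun j => bif ent A i j then [cd 4 j 0, cd 5 i j] else [])

/-- the complex of a matrix -/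
def KK (A : List (List Bool)) : List (List ℕ) :=
  (List.range A.length).flatMap (fun i => bas i ++
    ((List.range A.length).map (fun j => [cd 5 i j]) ++
      (apx A i).flatMap (fun c => [[c, cd 0 i 0], [c, cd 1 i 0], [c, cd 0 i 0, cd 1 i 0]])))

/-- the matrix as a function -/
def mt (A : List (List Bool)) : Fin A.length → Fin A.length → Bool := fun i j => ent A i.val j.val

theorem mem_apx (A : List (List Bool)) (i : Fin A.length) (c : ℕ) : c ∈ apx A i.val ↔
    ∃ x : Ap A.length, ic (mt A) i x = true ∧ vc (.inr (.inr x) : Vt A.length) = c := by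
  unfold apx
  rw [List.mem_cons, List.mem_flatMap]
  constructor
  · rintro (rfl | ⟨j, hj, h⟩)
    · exact ⟨.inr (i, none), by simp [ic], rfl⟩
    · rw [List.mem_range] at hj
      cases he : ent A i.val j with
      | false => rw [he] at h; simp at h
      | true =>
        rw [he] at h
        simp only [cond_true, List.mem_cons, List.not_mem_nil, or_false] at h
        rcases h with rfl | rfl
        · exact ⟨.inl ⟨j, hj⟩, he, rfl⟩
        · refine ⟨.inr (i, some ⟨j, hj⟩), ?_, rfl⟩
          simp only [ic, decide_true, Bool.true_and]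
          exact he
  · rintro ⟨x, hx, rfl⟩
    rcases x with j | ⟨i', _ | j⟩
    · refine Or.inr ⟨j.val, List.mem_range.2 j.2, ?_⟩
      have : ent A i.val j.val = true := hx
      rw [this]
      simp [vc]
    · have := ic_inr (mt A) hx
      subst this
      exact Or.inl rfl
    · have := ic_inr (mt A) hx
      subst this
      simp only [ic, decide_true, Bool.true_and] at hx
      refine Or.inr ⟨j.val, List.mem_range.2 j.2, ?_⟩
      have h1 : ent A i'.val j.val = true := hx
      rw [h1]
      simp [vc]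

theorem mem_cells (A : List (List Bool)) (s : Finset ℕ) :
    s ∈ cells (KK A) ↔ ∃ x : Cl (ic (mt A)), real x = s := by
  unfold cells
  rw [List.mem_toFinset, List.mem_map]
  constructor
  · rintro ⟨l, hl, rfl⟩
    unfold KK at hl
    rw [List.mem_flatMap] at hl
    obtain ⟨i, hi, hl⟩ := hl
    rw [List.mem_range] at hi
    rw [List.mem_append, List.mem_append] at hl
    rcases hl with hl | hl | hl
    · unfold bas at hl
      simp only [List.mem_cons, List.not_mem_nil, or_false] at hl
      rcases hl with rfl | rfl | rfl | rfl | rfl | rfl | rfl | rfl | rfl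
      · exact ⟨.a ⟨i, hi⟩ false, by simp [real, rv, vc]⟩
      · exact ⟨.a ⟨i, hi⟩ true, by simp [real, rv, vc]⟩
      · exact ⟨.l ⟨i, hi⟩ false, by simp [real, rv, vc]⟩
      · exact ⟨.l ⟨i, hi⟩ true, by simp [real, rv, vc]⟩
      · exact ⟨.p (.inr (⟨i, hi⟩, none)), by simp [real, rv, vc]⟩
      · exact ⟨.p (.inl ⟨i, hi⟩), by simp [real, rv, vc]⟩
      · exact ⟨.pe ⟨i, hi⟩ false, by simp [real, rv, vc]⟩
      · exact ⟨.pe ⟨i, hi⟩ true, by simp [real, rv, vc]⟩
      · exact ⟨.f ⟨i, hi⟩, by simp [real, rv, vc]⟩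
    · rw [List.mem_map] at hl
      obtain ⟨j, hj, rfl⟩ := hl
      rw [List.mem_range] at hj
      exact ⟨.p (.inr (⟨i, hi⟩, some ⟨j, hj⟩)), by simp [real, rv, vc]⟩
    · rw [List.mem_flatMap] at hl
      obtain ⟨c, hc, hl⟩ := hl
      obtain ⟨x, hx, rfl⟩ := (mem_apx A ⟨i, hi⟩ c).1 hc
      simp only [List.mem_cons, List.not_mem_nil, or_false] at hl
      rcases hl with rfl | rfl | rfl
      · exact ⟨.g ⟨(⟨i, hi⟩, x), hx⟩ false, by simp [real, rv, vc]⟩
      · exact ⟨.g ⟨(⟨i, hi⟩, x), hx⟩ true, by simp [real, rv, vc]⟩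
      · exact ⟨.tt ⟨(⟨i, hi⟩, x), hx⟩, by simp [real, rv, vc]⟩
  · rintro ⟨x, rfl⟩
    have hK : ∀ (i : Fin A.length) (l : List ℕ), (l ∈ bas i.val ∨
        l ∈ (List.range A.length).map (fun j => [cd 5 i.val j]) ∨
        l ∈ (apx A i.val).flatMap (fun c => [[c, cd 0 i.val 0], [c, cd 1 i.val 0],
          [c, cd 0 i.val 0, cd 1 i.val 0]])) → l ∈ KK A := by
      intro i l hl
      unfold KK
      rw [List.mem_flatMap]
      refine ⟨i.val, List.mem_range.2 i.2, ?_⟩
      rw [List.mem_append, List.mem_append]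
      exact hl
    cases x with
    | a u b =>
      cases b
      · exact ⟨[cd 0 u.val 0], hK u _ (Or.inl (by simp [bas])), by simp [real, rv, vc]⟩
      · exact ⟨[cd 1 u.val 0], hK u _ (Or.inl (by simp [bas])), by simp [real, rv, vc]⟩
    | l u b =>
      cases b
      · exact ⟨[cd 2 u.val 0], hK u _ (Or.inl (by simp [bas])), by simp [real, rv, vc]⟩
      · exact ⟨[cd 3 u.val 0], hK u _ (Or.inl (by simp [bas])), by simp [real, rv, vc]⟩
    | p x =>
      rcases x with j | ⟨i, _ | j⟩
      · exact ⟨[cd 4 j.val 0], hK j _ (Or.inl (by simp [bas])), by simp [real, rv, vc]⟩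
      · exact ⟨[cd 6 i.val 0], hK i _ (Or.inl (by simp [bas])), by simp [real, rv, vc]⟩
      · exact ⟨[cd 5 i.val j.val], hK i _ (Or.inr (Or.inl (List.mem_map.2
          ⟨j.val, List.mem_range.2 j.2, rfl⟩))), by simp [real, rv, vc]⟩
    | pe u b =>
      cases b
      · exact ⟨[cd 0 u.val 0, cd 2 u.val 0], hK u _ (Or.inl (by simp [bas])),
          by simp [real, rv, vc]⟩
      · exact ⟨[cd 1 u.val 0, cd 3 u.val 0], hK u _ (Or.inl (by simp [bas])),
          by simp [real, rv, vc]⟩
    | f u =>
      exact ⟨[cd 0 u.val 0, cd 1 u.val 0], hK u _ (Or.inl (by simp [bas])),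
        by simp [real, rv, vc]⟩
    | g t b =>
      have hc := (mem_apx A t.1.1 _).2 ⟨t.1.2, t.2, rfl⟩
      cases b
      · exact ⟨[vc (.inr (.inr t.1.2) : Vt A.length), cd 0 t.1.1.val 0],
          hK t.1.1 _ (Or.inr (Or.inr (List.mem_flatMap.2 ⟨_, hc, by simp⟩))),
          by simp [real, rv, vc]⟩
      · exact ⟨[vc (.inr (.inr t.1.2) : Vt A.length), cd 1 t.1.1.val 0],
          hK t.1.1 _ (Or.inr (Or.inr (List.mem_flatMap.2 ⟨_, hc, by simp⟩))),
          by simp [real, rv, vc]⟩
    | tt t =>
      have hc := (mem_apx A t.1.1 _).2 ⟨t.1.2, t.2, rfl⟩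
      exact ⟨[vc (.inr (.inr t.1.2) : Vt A.length), cd 0 t.1.1.val 0, cd 1 t.1.1.val 0],
        hK t.1.1 _ (Or.inr (Or.inr (List.mem_flatMap.2 ⟨_, hc, by simp⟩))),
        by simp [real, rv, vc]⟩

theorem KK_complex (A : List (List Bool)) : IsComplex (KK A) := complex_of (mem_cells A)

/-- **The signed sum of the coefficients is a power of two times the permanent.** -/
theorem sgs_KK (A : List (List Bool)) (h : ∀ r ∈ A, r.length = A.length) :
    sgs (ME (KK A)) = 2 ^ A.length * F A := by
  have h1 := sgs_ME (KK A)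
  rw [sign_crit (fun s hs => ⟨(KK_complex A s hs).1, (KK_complex A s hs).2.1⟩),
    sum_transport (fun x y => Cv x y) real (cells (KK A)) real_inj (mem_cells A)
      (cov_real (mem_cells A)), signed_sum] at h1
  rw [F_eq_card A h]
  have h2 : (univ.filter (fun e : Equiv.Perm (Fin A.length) => ∀ j, mt A (e j) j = true)) =
      (univ.filter (fun σ : Equiv.Perm (Fin A.length) => ∀ j, ent A (σ j).val j.val = true)) :=
    rfl
  rw [h2] at h1
  exact_mod_cast h1

end Pool.Agent.H269.MEP
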