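import Pool.Agent.H269.MEP.Ans
import Pool.Agent.H269.MEP.Real
import Pool.Agent.H578R2.Med.PP
import Pool.Agent.H671R2.PolyAuto

/-!
# Computing the Morse ensemble polynomial is `#P`-hard
-/

set_option autoImplicit false

namespace Pool.Agent.NPC.ME269

open Pool.Agent.H269.MEP Pool.Agent.NPC.Cnt Pool.Agent.NPC.H549NRed
open Pool.Agent.H549R2.Convex (ent F)
open Pool.Agent.NPC.H549Convex (LL)

/-! ### Decoding the answer -/

theorem bits_valB_true : ∀ l : List Bool, (valB (l ++ [true])).bits = l ++ [true]
  | [] => by simp [valB]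
  | b :: l => by
    have ih := bits_valB_true l
    have h0 : valB (l ++ [true]) ≠ 0 := by
      intro h
      rw [h] at ih
      simp at ih
    have h1 : valB (b :: l ++ [true]) = Nat.bit b (valB (l ++ [true])) := by
      rw [List.cons_append, valB_cons]
      cases b <;> simp [Nat.bit]
      omega
    rw [h1, Nat.bits_append_bit _ _ (fun h => absurd h h0), ih, List.cons_append]

/-- decode an answer -/
def dec (m : ℕ) : List ((ℕ × ℕ × ℕ) × ℕ) :=
  (unbits (List ((ℕ × ℕ × ℕ) × ℕ)) m.bits.reverse.tail.reverse).getD []

theorem dec_answer {K : List (List ℕ)} (hK : IsComplex K) : dec (answer K) = ME K := by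
  unfold answer dec
  rw [if_pos hK, bits_valB_true]
  simp only [List.reverse_append, List.reverse_cons, List.reverse_nil, List.nil_append,
    List.singleton_append, List.tail_cons, List.reverse_reverse]
  rw [unbits_bits, Option.getD_some]

theorem dec_poly : Poly dec := by
  unfold dec
  have h1 : Poly (fun m : ℕ => m.bits.reverse.tail.reverse) :=
    Poly.reverse (Poly.tail (Poly.reverse (Poly.natBits Poly.id)))
  exact Poly.optGetD (poly_unbits.comp h1) (Poly.const _)

theorem evn_poly (r : ℕ) : Poly (fun l : List ((ℕ × ℕ × ℕ) × ℕ) => evn l r) := by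
  unfold evn
  refine Poly.sum (Poly.map (l := fun l : List ((ℕ × ℕ × ℕ) × ℕ) => l)
    (F := fun _ q => (if q.1.2.1 % 2 = r then 1 else 0) * q.2) Poly.id ?_)
  have h1 : Poly (fun z : List ((ℕ × ℕ × ℕ) × ℕ) × ((ℕ × ℕ × ℕ) × ℕ) => z.2.1.2.1) := by fun_prop
  have h2 : Poly (fun z : List ((ℕ × ℕ × ℕ) × ℕ) × ((ℕ × ℕ × ℕ) × ℕ) => z.2.2) := by fun_prop
  exact Poly.mul (Poly.ite (Poly.decide_eq (Poly.mod h1 (Poly.const 2)) (Poly.const r))
    (Poly.const 1) (Poly.const 0)) h2

theorem sgs_poly : Poly sgs := by
  unfold sgs
  exact Poly.add (Poly.sub (evn_poly 0) (evn_poly 1)) (Poly.sub (evn_poly 1) (evn_poly 0))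

/-! ### The complex -/

variable {α : Type} [TEnc α]

@[fun_prop]
theorem pairN_poly {f g : α → ℕ} (hf : Poly f) (hg : Poly g) :
    Poly (fun a => Nat.pair (f a) (g a)) := by
  unfold Nat.pair
  exact Poly.ite (Poly.decide_lt hf hg) (Poly.add (Poly.mul hg hg) hf)
    (Poly.add (Poly.add (Poly.mul hf hf) hf) hg)

@[fun_prop]
theorem cd_poly {f g h : α → ℕ} (hf : Poly f) (hg : Poly g) (hh : Poly h) :
    Poly (fun a => cd (f a) (g a) (h a)) := by
  unfold cd
  fun_prop

@[fun_prop]
theorem ent_poly {A : α → List (List Bool)} {i j : α → ℕ} (hA : Poly A) (hi : Poly i)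
    (hj : Poly j) : Poly (fun a => ent (A a) (i a) (j a)) := by
  unfold ent
  fun_prop

theorem apx_poly : Poly (fun q : LL × ℕ => apx q.1 q.2) := by
  unfold apx
  have u : UPoly (fun q : LL × ℕ => q.1.length) := UPoly.length (Poly.fst Poly.id)
  refine Poly.cons (by fun_prop) (Poly.flatMap (l := fun q : LL × ℕ => List.range q.1.length)
    (F := fun q j => bif ent q.1 q.2 j then [cd 4 j 0, cd 5 q.2 j] else []) u.range ?_)
  fun_prop

theorem bas_poly : Poly bas := by
  unfold bas
  fun_prop

theorem KK_poly : Poly KK := by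
  unfold KK
  have u : UPoly (fun A : LL => A.length) := UPoly.length Poly.id
  refine Poly.flatMap (l := fun A : LL => List.range A.length)
    (F := fun A i => bas i ++ ((List.range A.length).map (fun j => [cd 5 i j]) ++
      (apx A i).flatMap (fun c => [[c, cd 0 i 0], [c, cd 1 i 0], [c, cd 0 i 0, cd 1 i 0]])))
    u.range ?_
  have u2 : UPoly (fun q : LL × ℕ => q.1.length) := UPoly.length (Poly.fst Poly.id)
  refine Poly.append (bas_poly.comp (Poly.snd Poly.id)) (Poly.append ?_ ?_)
  · exact Poly.map (l := fun q : LL × ℕ => List.range q.1.length)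
      (F := fun q j => [cd 5 q.2 j]) u2.range (by fun_prop)
  · exact Poly.flatMap (l := fun q : LL × ℕ => apx q.1 q.2)
      (F := fun q c => [[c, cd 0 q.2 0], [c, cd 1 q.2 0], [c, cd 0 q.2 0, cd 1 q.2 0]])
      apx_poly (by fun_prop)

/-! ### The reduction -/

/-- the test for square matrices -/
def sqB (A : LL) : Bool := A.all (fun r => decide (r.length = A.length))

theorem sqB_iff (A : LL) : sqB A = true ↔ ∀ r ∈ A, r.length = A.length := by
  unfold sqB
  simp

theorem nred_me : NRed (fun _ : LL => True) F IsComplex answer := by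
  refine ⟨fun A => [KK A], fun p => bif sqB p.1 then
    sgs (dec (p.2.getD 0 0)) / 2 ^ p.1.length else 0, ?_, ?_, ?_⟩
  · exact Poly.cons KK_poly (Poly.const [])
  · have h1 : Poly (fun p : LL × List ℕ => sqB p.1) := by
      unfold sqB
      fun_prop
    have h2 : Poly (fun p : LL × List ℕ => sgs (dec (p.2.getD 0 0))) :=
      (sgs_poly.comp dec_poly).comp (Poly.getD (Poly.snd Poly.id) (Poly.const 0) (Poly.const 0))
    have h3 : Poly (fun p : LL × List ℕ => 2 ^ p.1.length) :=
      Med.poly_two_pow (UPoly.length (Poly.fst Poly.id))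
    exact Poly.cond h1 (Poly.div h2 h3) (Poly.const 0)
  · intro A _
    refine ⟨fun b hb => ?_, ?_⟩
    · rw [List.mem_singleton] at hb
      rw [hb]
      exact KK_complex A
    · simp only [List.map_cons, List.map_nil, List.getD_cons_zero]
      cases h : sqB A with
      | true =>
        rw [cond_true, dec_answer (KK_complex A), sgs_KK A ((sqB_iff A).1 h),
          Nat.mul_div_cancel_left _ (by positivity)]
      | false =>
        have h1 : ¬ ∀ r ∈ A, r.length = A.length := by
          rw [← sqB_iff, h]
          simp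
        rw [cond_false, F, if_neg h1]

/-! ### The length of the answer -/

theorem size_le_self (n : ℕ) : n.size ≤ n := Nat.size_le.2 Nat.lt_two_pow_self

theorem cells_card_le (K : List (List ℕ)) : (cells K).card ≤ K.length := by
  unfold cells
  exact (List.toFinset_card_le _).trans (by rw [List.length_map])

theorem coef_size (K : List (List ℕ)) (a b c : ℕ) :
    (coef (cells K) a b c).size ≤ (cells K).card * (cells K).card + 1 := by
  classical
  rw [Nat.size_le]
  have h1 : coef (cells K) a b c ≤ 2 ^ ((cells K).card * (cells K).card) := by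
    unfold coef matchings
    refine (Finset.card_filter_le _ _).trans ((Finset.card_filter_le _ _).trans ?_)
    rw [Finset.card_powerset, Finset.card_product]
  have h2 : 2 ^ ((cells K).card * (cells K).card) < 2 ^ ((cells K).card * (cells K).card + 1) :=
    Nat.pow_lt_pow_right (by norm_num) (by omega)
  omega

theorem length_flatMap_range {β : Type} (n m : ℕ) (F : ℕ → List β) (h : ∀ k, (F k).length = m) :
    ((List.range n).flatMap F).length = n * m := by
  rw [List.length_flatMap]
  simp [h]

theorem ME_length (K : List (List ℕ)) :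
    (ME K).length ≤ ((cells K).card + 1) * (((cells K).card + 1) * ((cells K).card + 1)) := by
  unfold ME
  refine (List.length_filter_le _ _).trans ?_
  rw [length_flatMap_range _ (((cells K).card + 1) * ((cells K).card + 1))]
  intro a
  rw [length_flatMap_range _ ((cells K).card + 1)]
  intro b
  simp

theorem ME_entry (K : List (List ℕ)) (q : (ℕ × ℕ × ℕ) × ℕ) (hq : q ∈ ME K) :
    sz q ≤ 4 * ((cells K).card * (cells K).card) + 12 * (cells K).card + 11 := by
  unfold ME at hq
  rw [List.mem_filter] at hq
  have hq1 := hq.1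
  simp only [List.mem_flatMap, List.mem_map, List.mem_range] at hq1
  obtain ⟨a, ha, b, hb, c, hc, rfl⟩ := hq1
  have h1 := sz_nat_le a
  have h2 := sz_nat_le b
  have h3 := sz_nat_le c
  have h4 := sz_nat_le (coef (cells K) a b c)
  have h5 := size_le_self a
  have h6 := size_le_self b
  have h7 := size_le_self c
  have h8 := coef_size K a b c
  simp only [sz_pair]
  omega

/-- the bound for the length of the answers -/
noncomputable def bd : Polynomial ℕ :=
  (Polynomial.X + 1) * ((Polynomial.X + 1) * (Polynomial.X + 1)) *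
    (4 * (Polynomial.X * Polynomial.X) + 12 * Polynomial.X + 12) + 3

theorem bd_eval (s : ℕ) : bd.eval s =
    (s + 1) * ((s + 1) * (s + 1)) * (4 * (s * s) + 12 * s + 12) + 3 := by
  unfold bd
  simp only [Polynomial.eval_add, Polynomial.eval_mul, Polynomial.eval_X, Polynomial.eval_one,
    Polynomial.eval_ofNat]

theorem answer_size (K : List (List ℕ)) : (answer K).size ≤ bd.eval (sz K) := by
  unfold answer
  split_ifs with hK
  · rw [← Nat.size_eq_bits_len, bits_valB_true, List.length_append, bits_length, bd_eval]
    have h1 := cells_card_le K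
    have h2 := length_lt_sz K
    have h3 := sz_le_length_mul (ME K) _ (ME_entry K)
    have h4 := ME_length K
    set N := (cells K).card
    have h5 : N ≤ sz K := by omega
    have h6 : (N + 1) * ((N + 1) * (N + 1)) ≤ (sz K + 1) * ((sz K + 1) * (sz K + 1)) := by
      gcongr
    have h7 : 4 * (N * N) + 12 * N + 11 + 1 ≤ 4 * (sz K * sz K) + 12 * sz K + 12 := by
      have := Nat.mul_le_mul h5 h5
      omega
    have h8 := Nat.mul_le_mul (h4.trans h6) h7
    simp only [List.length_cons, List.length_nil]
    omega
  · simp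

/-- **Computing the Morse ensemble polynomial is `#P`-hard.** -/
theorem hard : SharpPHard (strFn answer) :=
  hard_of_nred (nred_sat.comp nred_me) (fun _ _ => rfl) bd answer_size

end Pool.Agent.NPC.ME269
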