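import Pool.Agent.H269.MEP.Sum

/-!
# The signed sum is a power of two times the permanent
-/

set_option autoImplicit false

namespace Pool.Agent.H269.MEP

open Finset

variable {n : ℕ} (A : Fin n → Fin n → Bool)

/-- the apexes: the columns, and the private ones -/
abbrev Ap (n : ℕ) : Type := Fin n ⊕ (Fin n × Option (Fin n))

/-- the incidences of a matrix -/
def ic (u : Fin n) : Ap n → Bool
  | .inl j => A u j
  | .inr (i, none) => decide (i = u)
  | .inr (i, some j) => decide (i = u) && A u j

/-- the sign of a private choice -/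
def pr (s : Option (Ap n)) : ℤ :=
  match s with
  | some (.inr _) => -1
  | _ => 1

theorem ic_inr {u i : Fin n} {o : Option (Fin n)} (h : ic A u (.inr (i, o)) = true) : i = u := by
  cases o with
  | none => simpa [ic] using h
  | some j =>
    simp only [ic, Bool.and_eq_true, decide_eq_true_eq] at h
    exact h.1

theorem prod_priv (σ : Fin n → Option (Ap n))
    (hσ : ∀ u x, σ u = some x → ic A u x = true) :
    ∏ y : Fin n × Option (Fin n), (1 - 2 * (al (ic A) (.inr y) σ : ℤ)) = ∏ u, pr (σ u) := by
  rw [Fintype.prod_prod_type]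
  refine Finset.prod_congr rfl fun i _ => ?_
  have h1 : ∀ o, (1 - 2 * (al (ic A) (.inr (i, o)) σ : ℤ)) =
      if σ i = some (.inr (i, o)) then -1 else 1 := by
    intro o
    unfold al
    by_cases h : σ i = some (.inr (i, o))
    · have : (univ.filter (fun u => ic A u (.inr (i, o)) = true ∧ σ u = some (.inr (i, o)))) =
          {i} := by
        ext u
        simp only [Finset.mem_filter, Finset.mem_univ, true_and, Finset.mem_singleton]
        constructor
        · rintro ⟨h2, _⟩
          exact (ic_inr A h2).symm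
        · rintro rfl
          exact ⟨hσ _ _ h, h⟩
      rw [this, if_pos h]
      norm_num
    · have : (univ.filter (fun u => ic A u (.inr (i, o)) = true ∧ σ u = some (.inr (i, o)))) =
          ∅ := by
        rw [Finset.filter_eq_empty_iff]
        rintro u _ ⟨h2, h3⟩
        have := ic_inr A h2
        subst this
        exact h h3
      rw [this, if_neg h]
      norm_num
  rw [Finset.prod_congr rfl fun o _ => h1 o]
  cases hs : σ i with
  | none => simp [pr]
  | some x =>
    cases x with
    | inl j => simp [pr]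
    | inr y =>
      obtain ⟨i', o'⟩ := y
      have hi : i' = i := ic_inr A (hσ _ _ hs)
      subst hi
      simp only [Option.some.injEq, Sum.inr.injEq, Prod.mk.injEq, true_and, pr]
      rw [Finset.prod_ite_eq]
      simp

/-- the weight of a choice of a hub -/
def WW (u : Fin n) (s : Option (Ap n)) : ℤ := vv (ic A) u s * pr s

theorem WW_inl (u j : Fin n) : WW A u (some (.inl j)) = if A u j = true then 1 else 0 :=
  mul_one _

theorem WW_none (u : Fin n) : WW A u none = 1 := mul_one _

theorem WW_inr_none (u i : Fin n) : WW A u (some (.inr (i, none))) = if i = u then -1 else 0 := by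
  by_cases h : i = u <;> simp [WW, vv, pr, ic, h]

theorem WW_inr_some (u i j : Fin n) : WW A u (some (.inr (i, some j))) =
    if i = u then - (if A u j = true then 1 else 0) else 0 := by
  by_cases h : i = u <;> by_cases h2 : A u j = true <;> simp [WW, vv, pr, ic, h, h2]

theorem sum_WW (u : Fin n) : ∑ s, WW A u s = 0 := by
  rw [Fintype.sum_option, Fintype.sum_sum_type, Fintype.sum_prod_type]
  have h1 : ∀ i : Fin n, ∑ o, WW A u (some (.inr (i, o))) =
      if i = u then -1 - ∑ j, (if A u j = true then (1 : ℤ) else 0) else 0 := by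
    intro i
    rw [Fintype.sum_option]
    simp only [WW_inr_none, WW_inr_some]
    by_cases h : i = u
    · simp only [if_pos h]
      rw [Finset.sum_neg_distrib]
      ring
    · simp only [if_neg h]
      simp
  rw [Finset.sum_congr rfl fun i _ => h1 i, Finset.sum_ite_eq' univ u]
  simp only [Finset.mem_univ, if_true, WW_inl, WW_none]
  ring

/-- the constraint of a pointed hub -/
def ct (ρ : Fin n → Option (Fin n)) (u : Fin n) (s : Option (Ap n)) : ℤ :=
  ∏ j, (if ρ j = some u ∧ s ≠ some (.inl j) then (0 : ℤ) else 1)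

/-- the weight of a pointer -/
def zc (j : Fin n) (r : Option (Fin n)) : ℤ := r.elim 1 (fun u => if A u j = true then -2 else 0)

/-- the weight of a pointer with its constraint -/
def zz (j : Fin n) (r : Option (Fin n)) (σ : Fin n → Option (Ap n)) : ℤ :=
  r.elim 1 (fun u => if A u j = true ∧ σ u = some (.inl j) then -2 else 0)

theorem sum_zz (j : Fin n) (σ : Fin n → Option (Ap n)) :
    ∑ r, zz A j r σ = 1 - 2 * (al (ic A) (.inl j) σ : ℤ) := by
  rw [Fintype.sum_option]
  unfold zz al
  simp only [Option.elim_none, Option.elim_some]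
  rw [Finset.card_filter, Nat.cast_sum, Finset.mul_sum, sub_eq_add_neg, ← Finset.sum_neg_distrib]
  congr 1
  refine Finset.sum_congr rfl fun u _ => ?_
  by_cases h : A u j = true ∧ σ u = some (.inl j)
  · have h' : ic A u (.inl j) = true ∧ σ u = some (.inl j) := h
    rw [if_pos h, if_pos h']
    norm_num
  · have h' : ¬ (ic A u (.inl j) = true ∧ σ u = some (.inl j)) := h
    rw [if_neg h, if_neg h']
    norm_num

theorem prod_zz (ρ : Fin n → Option (Fin n)) (σ : Fin n → Option (Ap n)) :
    ∏ j, zz A j (ρ j) σ = (∏ j, zc A j (ρ j)) * ∏ u, ct ρ u (σ u) := by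
  unfold ct
  rw [Finset.prod_comm, ← Finset.prod_mul_distrib]
  refine Finset.prod_congr rfl fun j _ => ?_
  unfold zz zc
  cases hr : ρ j with
  | none => simp
  | some u =>
    simp only [Option.elim_some]
    by_cases hA : A u j = true
    · by_cases hs : σ u = some (.inl j)
      · rw [if_pos ⟨hA, hs⟩, if_pos hA, Finset.prod_eq_one, mul_one]
        intro u' _
        rw [if_neg]
        rintro ⟨h1, h2⟩
        rw [← Option.some.inj h1] at h2
        exact h2 hs
      · rw [if_neg (fun h => hs h.2), Finset.prod_eq_zero (Finset.mem_univ u), mul_zero]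
        rw [if_pos ⟨rfl, hs⟩]
    · rw [if_neg (fun h => hA h.1), if_neg hA, zero_mul]

/-- the sum at a pointed hub -/
def NN (ρ : Fin n → Option (Fin n)) (u : Fin n) : ℤ := ∑ s, WW A u s * ct ρ u s

theorem NN_zero (ρ : Fin n → Option (Fin n)) (u : Fin n) (h : ∀ j, ρ j ≠ some u) :
    NN A ρ u = 0 := by
  unfold NN
  rw [← sum_WW A u]
  refine Finset.sum_congr rfl fun s _ => ?_
  unfold ct
  rw [Finset.prod_eq_one, mul_one]
  intro j _
  rw [if_neg (fun h1 => h j h1.1)]

theorem NN_perm (e : Equiv.Perm (Fin n)) (j : Fin n) :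
    NN A (fun j => some (e j)) (e j) = if A (e j) j = true then 1 else 0 := by
  unfold NN
  rw [Finset.sum_eq_single (some (.inl j))]
  · have h1 : ct (fun j => some (e j)) (e j) (some (.inl j) : Option (Ap n)) = 1 := by
      unfold ct
      refine Finset.prod_eq_one fun j' _ => ?_
      rw [if_neg]
      rintro ⟨h1, h2⟩
      have h3 : j' = j := e.injective (Option.some.inj h1)
      exact h2 (by rw [h3])
    rw [h1, mul_one, WW_inl]
  · intro s _ hs
    have h1 : ct (fun j => some (e j)) (e j) s = 0 := by
      unfold ct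
      refine Finset.prod_eq_zero (Finset.mem_univ j) ?_
      rw [if_pos ⟨rfl, hs⟩]
    rw [h1, mul_zero]
  · intro h
    exact absurd (Finset.mem_univ _) h

/-- **Second evaluation.** -/
theorem sum_second :
    ∑ σ : Fin n → Option (Ap n), (∏ u, vv (ic A) u (σ u)) *
      ∏ x, (1 - 2 * (al (ic A) x σ : ℤ)) =
    (-2) ^ n * ((univ.filter (fun e : Equiv.Perm (Fin n) => ∀ j, A (e j) j = true)).card : ℤ) := by
  have h1 : ∀ σ : Fin n → Option (Ap n), (∏ u, vv (ic A) u (σ u)) *
      ∏ x, (1 - 2 * (al (ic A) x σ : ℤ)) =
      (∏ u, WW A u (σ u)) * ∑ ρ : Fin n → Option (Fin n), ∏ j, zz A j (ρ j) σ := by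
    intro σ
    rw [sum_fun_prod (fun j r => zz A j r σ), Finset.prod_congr rfl fun j _ => sum_zz A j σ]
    by_cases hσ : ∀ u x, σ u = some x → ic A u x = true
    · rw [Fintype.prod_sum_type, prod_priv A σ hσ]
      unfold WW
      rw [Finset.prod_mul_distrib]
      ring
    · push Not at hσ
      obtain ⟨u, x, h2, h3⟩ := hσ
      have h4 : vv (ic A) u (σ u) = 0 := by
        unfold vv
        rw [h2]
        simp [h3]
      rw [Finset.prod_eq_zero (Finset.mem_univ u) h4, zero_mul,
        Finset.prod_eq_zero (Finset.mem_univ u) (by unfold WW; rw [h4, zero_mul]), zero_mul]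
  rw [Finset.sum_congr rfl fun σ _ => h1 σ]
  simp only [Finset.mul_sum]
  rw [Finset.sum_comm]
  have h2 : ∀ ρ : Fin n → Option (Fin n), ∑ σ : Fin n → Option (Ap n),
      (∏ u, WW A u (σ u)) * ∏ j, zz A j (ρ j) σ =
      (∏ j, zc A j (ρ j)) * ∏ u, NN A ρ u := by
    intro ρ
    unfold NN
    rw [← sum_fun_prod (fun u s => WW A u s * ct ρ u s), Finset.mul_sum]
    refine Finset.sum_congr rfl fun σ _ => ?_
    rw [prod_zz, Finset.prod_mul_distrib]
    ring
  rw [Finset.sum_congr rfl fun ρ _ => h2 ρ]
  rw [← Fintype.sum_of_injective (fun e : Equiv.Perm (Fin n) => (fun j => some (e j) :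
    Fin n → Option (Fin n))) ?_ (fun e => if ∀ j, A (e j) j = true then (-2 : ℤ) ^ n else 0)]
  · rw [Finset.card_filter, Nat.cast_sum, Finset.mul_sum]
    refine Finset.sum_congr rfl fun e _ => ?_
    split_ifs <;> simp
  · intro ρ hρ
    by_cases hs : ∀ u, ∃ j, ρ j = some u
    · exfalso
      apply hρ
      choose g hg using hs
      have hginj : Function.Injective g := by
        intro u u' h
        have := hg u
        rw [h, hg u'] at this
        exact (Option.some.inj this).symm
      have hgb := Finite.injective_iff_bijective.1 hginj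
      refine ⟨(Equiv.ofBijective g hgb).symm, ?_⟩
      funext j
      obtain ⟨u, rfl⟩ := hgb.2 j
      rw [hg]
      exact congrArg some ((Equiv.ofBijective g hgb).symm_apply_apply u)
    · push Not at hs
      obtain ⟨u, hu⟩ := hs
      rw [Finset.prod_eq_zero (Finset.mem_univ u) (NN_zero A ρ u hu), mul_zero]
  · intro e
    have h3 : ∏ u, NN A (fun j => some (e j)) u = ∏ j, NN A (fun j => some (e j)) (e j) :=
      (Equiv.prod_comp e _).symm
    rw [h3, ← Finset.prod_mul_distrib]
    simp only [NN_perm, zc, Option.elim_some]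
    split_ifs with h
    · rw [Finset.prod_congr rfl fun j _ => by rw [if_pos (h j), if_pos (h j), mul_one]]
      simp
    · push Not at h
      obtain ⟨j, hj⟩ := h
      rw [Finset.prod_eq_zero (Finset.mem_univ j)]
      rw [if_neg hj, zero_mul]
  · intro e e' h
    ext j
    have := congrFun h j
    rw [Option.some.inj this]

theorem abs_ep (u : Fin n) : ep (ic A) u = 1 ∨ ep (ic A) u = -1 := by
  unfold ep
  rw [prod_sign]
  exact neg_one_pow_eq_or ℤ _

open Classical in
/-- **The signed number of acyclic matchings.** -/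
theorem signed_sum :
    |∑ M ∈ (univ : Finset (Finset (Cl (ic A) × Cl (ic A)))).filter (fun M => MT Cv M ∧ Ac Cv M),
      (-1 : ℤ) ^ M.card| =
    2 ^ n * ((univ.filter (fun e : Equiv.Perm (Fin n) => ∀ j, A (e j) j = true)).card : ℤ) := by
  rw [sum_frozen, sum_data, sum_first, sum_second]
  have h1 : |∏ u, ep (ic A) u| = 1 := by
    rw [Finset.abs_prod]
    refine Finset.prod_eq_one fun u _ => ?_
    rcases abs_ep A u with h | h <;> rw [h] <;> norm_num
  rw [abs_mul, h1, one_mul, abs_mul, abs_pow]
  norm_num

end Pool.Agent.H269.MEP
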