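import Pool.Agent.H269.MEP.Data

/-!
# The signed sum over the data
-/

set_option autoImplicit false

namespace Pool.Agent.H269.MEP

open Finset

theorem sum_fun_prod {ι κ : Type} [Fintype ι] [DecidableEq ι] [Fintype κ] (f : ι → κ → ℤ) :
    ∑ p : ι → κ, ∏ i, f i (p i) = ∏ i, ∑ k, f i k := by
  rw [Finset.prod_univ_sum, Fintype.piFinset_univ]

theorem prod_sign {ι : Type} [Fintype ι] (c : ι → Prop) [DecidablePred c] :
    ∏ i, (if c i then (-1 : ℤ) else 1) = (-1) ^ (univ.filter c).card := by
  rw [Finset.prod_ite]
  simp

variable {U P : Type} [Fintype U] [Fintype P] [DecidableEq U] [DecidableEq P]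
  (inc : U → P → Bool)

/-- weight at a hub -/
def ws (u : U) (s : Option P) : ℤ := s.elim 1 (fun x => if inc u x = true then -1 else 0)
/-- weight at an apex -/
def wp (x : P) (r : Option (U × Bool)) : ℤ :=
  r.elim 1 (fun ub => if inc ub.1 x = true then -1 else 0)
/-- weight at an incidence -/
def wt (ux : U × P) (s : Option P) (r : Option (U × Bool)) (o : Option Bool) : ℤ :=
  o.elim 1 (fun b => if inc ux.1 ux.2 = true ∧ s ≠ some ux.2 ∧ r ≠ some (ux.1, b) then -1 else 0)

theorem weight_eq (d : Dt U P) [Decidable (Vd inc d)] :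
    (if Vd inc d then (-1 : ℤ) ^ ((univ.filter (fun u : U => d.1 u ≠ none)).card +
      ((univ.filter (fun x : P => d.2.1 x ≠ none)).card +
      (univ.filter (fun ux : U × P => d.2.2 ux ≠ none)).card)) else 0) =
    (∏ u, ws inc u (d.1 u)) * ((∏ x, wp inc x (d.2.1 x)) *
      ∏ ux : U × P, wt inc ux (d.1 ux.1) (d.2.1 ux.2) (d.2.2 ux)) := by
  split_ifs with h
  · rw [pow_add, pow_add, ← prod_sign, ← prod_sign, ← prod_sign]
    congr 1
    · refine Finset.prod_congr rfl fun u _ => ?_
      unfold ws
      cases hu : d.1 u with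
      | none => simp
      | some x => simp [h.1 u x hu]
    · congr 1
      · refine Finset.prod_congr rfl fun x _ => ?_
        unfold wp
        cases hx : d.2.1 x with
        | none => simp
        | some ub => simp [h.2.1 x ub.1 ub.2 hx]
      · refine Finset.prod_congr rfl fun ux _ => ?_
        unfold wt
        cases hx : d.2.2 ux with
        | none => simp
        | some b =>
          have h3 := h.2.2 ux.1 ux.2 b hx
          simp only [ne_eq, reduceCtorEq, not_false_eq_true, if_true, Option.elim_some]
          rw [if_pos h3]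
  · symm
    unfold Vd at h
    rw [not_and_or, not_and_or] at h
    rcases h with h | h | h
    · push Not at h
      obtain ⟨u, x, h1, h2⟩ := h
      have : ∏ u, ws inc u (d.1 u) = 0 := Finset.prod_eq_zero (Finset.mem_univ u) (by
        unfold ws
        rw [h1]
        simp [h2])
      rw [this, zero_mul]
    · push Not at h
      obtain ⟨x, u, b, h1, h2⟩ := h
      have : ∏ x, wp inc x (d.2.1 x) = 0 := Finset.prod_eq_zero (Finset.mem_univ x) (by
        unfold wp
        rw [h1]
        simp [h2])
      rw [this, zero_mul, mul_zero]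
    · push Not at h
      obtain ⟨u, x, b, h1, h2⟩ := h
      have : ∏ ux : U × P, wt inc ux (d.1 ux.1) (d.2.1 ux.2) (d.2.2 ux) = 0 :=
        Finset.prod_eq_zero (Finset.mem_univ (u, x)) (by
          unfold wt
          simp only [h1, Option.elim_some]
          rw [if_neg]
          rintro ⟨h3, h4, h5⟩
          exact h5 (h2 h3 h4))
      rw [this, mul_zero, mul_zero]

/-- the sum at an incidence -/
def cc (u : U) (x : P) (s : Option P) (r : Option (U × Bool)) : ℤ :=
  if inc u x = true ∧ s ≠ some x then (if r = some (u, false) ∨ r = some (u, true) then 0 else -1)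
  else 1

theorem sum_wt (u : U) (x : P) (s : Option P) (r : Option (U × Bool)) :
    ∑ o, wt inc (u, x) s r o = cc inc u x s r := by
  rw [Fintype.sum_option, Fintype.sum_bool]
  unfold wt cc
  simp only [Option.elim_none, Option.elim_some]
  by_cases h : inc u x = true ∧ s ≠ some x
  · obtain ⟨ha, hb⟩ := h
    by_cases h1 : r = some (u, false)
    · have h2 : r ≠ some (u, true) := by rw [h1]; simp
      simp [ha, hb, h1]
    · by_cases h2 : r = some (u, true)
      · simp [ha, hb, h2]
      · simp [ha, hb, h1, h2]
  · rw [if_neg h, if_neg (fun h3 => h ⟨h3.1, h3.2.1⟩), if_neg (fun h3 => h ⟨h3.1, h3.2.1⟩)]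
    norm_num

/-- the sign at an apex -/
def gg (x : P) (σ : U → Option P) : ℤ :=
  ∏ u, (if inc u x = true ∧ σ u ≠ some x then (-1 : ℤ) else 1)

/-- the number of hubs which select an apex -/
def al (x : P) (σ : U → Option P) : ℕ :=
  (univ.filter (fun u => inc u x = true ∧ σ u = some x)).card

theorem sum_apex (x : P) (σ : U → Option P) :
    ∑ r : Option (U × Bool), wp inc x r * ∏ u, cc inc u x (σ u) r =
      gg inc x σ * (1 - 2 * (al inc x σ : ℤ)) := by
  rw [Fintype.sum_option]
  have h0 : ∏ u, cc inc u x (σ u) none = gg inc x σ := by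
    unfold gg cc
    refine Finset.prod_congr rfl fun u _ => ?_
    simp
  have h1 : ∀ ub : U × Bool, wp inc x (some ub) * ∏ u, cc inc u x (σ u) (some ub) =
      if inc ub.1 x = true ∧ σ ub.1 = some x then - gg inc x σ else 0 := by
    rintro ⟨u0, b⟩
    unfold wp
    simp only [Option.elim_some]
    by_cases hi : inc u0 x = true
    · rw [if_pos hi]
      by_cases hs : σ u0 = some x
      · rw [if_pos ⟨hi, hs⟩]
        have : ∏ u, cc inc u x (σ u) (some (u0, b)) = gg inc x σ := by
          unfold gg
          refine Finset.prod_congr rfl fun u _ => ?_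
          unfold cc
          by_cases h : inc u x = true ∧ σ u ≠ some x
          · rw [if_pos h, if_pos h, if_neg]
            rintro (h2 | h2)
            · simp only [Option.some.injEq, Prod.mk.injEq] at h2
              rw [← h2.1] at h
              exact h.2 hs
            · simp only [Option.some.injEq, Prod.mk.injEq] at h2
              rw [← h2.1] at h
              exact h.2 hs
          · rw [if_neg h, if_neg h]
        rw [this]
        ring
      · rw [if_neg (fun h => hs h.2)]
        have : ∏ u, cc inc u x (σ u) (some (u0, b)) = 0 := by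
          refine Finset.prod_eq_zero (Finset.mem_univ u0) ?_
          unfold cc
          rw [if_pos ⟨hi, hs⟩, if_pos]
          cases b
          · exact Or.inl rfl
          · exact Or.inr rfl
        rw [this, mul_zero]
    · rw [if_neg hi, if_neg (fun h => hi h.1), zero_mul]
  rw [h0, Finset.sum_congr rfl fun ub _ => h1 ub]
  rw [Fintype.sum_prod_type]
  simp only [Fintype.sum_bool]
  have h2 : ∑ u : U, ((if inc u x = true ∧ σ u = some x then - gg inc x σ else 0) +
      (if inc u x = true ∧ σ u = some x then - gg inc x σ else 0)) =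
      (al inc x σ : ℤ) * (-2 * gg inc x σ) := by
    unfold al
    rw [Finset.card_filter, Nat.cast_sum, Finset.sum_mul]
    refine Finset.sum_congr rfl fun u _ => ?_
    split_ifs <;> simp
    ring
  rw [h2]
  simp only [wp, Option.elim_none]
  ring

/-- validity of a choice at a hub -/
def vv (u : U) (s : Option P) : ℤ := s.elim 1 (fun x => if inc u x = true then 1 else 0)

/-- the sign of a hub -/
def ep (u : U) : ℤ := ∏ x, (if inc u x = true then (-1 : ℤ) else 1)

theorem hub_sign (u : U) (s : Option P) :
    ws inc u s * ∏ x, (if inc u x = true ∧ s ≠ some x then (-1 : ℤ) else 1) =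
      ep inc u * vv inc u s := by
  cases s with
  | none => simp [ws, vv, ep]
  | some x0 =>
    by_cases hi : inc u x0 = true
    · have h1 : ws inc u (some x0) = ∏ x, (if x = x0 then (-1 : ℤ) else 1) := by
        simp [ws, hi]
      rw [h1, ← Finset.prod_mul_distrib]
      simp only [vv, Option.elim_some, hi, if_true, mul_one, ep]
      refine Finset.prod_congr rfl fun x _ => ?_
      by_cases hx : x = x0
      · subst hx
        simp [hi]
      · have : ¬ (some x0 = some x) := fun e => hx (Option.some.inj e).symm
        simp [hx, this]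
    · simp [ws, vv, hi]

open Classical in
/-- **First evaluation.** -/
theorem sum_first :
    ∑ d ∈ (univ : Finset (Dt U P)).filter (fun d => Vd inc d),
      (-1 : ℤ) ^ ((univ.filter (fun u : U => d.1 u ≠ none)).card +
      ((univ.filter (fun x : P => d.2.1 x ≠ none)).card +
      (univ.filter (fun ux : U × P => d.2.2 ux ≠ none)).card)) =
    (∏ u, ep inc u) * ∑ σ : U → Option P, (∏ u, vv inc u (σ u)) *
      ∏ x, (1 - 2 * (al inc x σ : ℤ)) := by
  rw [Finset.sum_filter]
  rw [Finset.sum_congr rfl fun d _ => weight_eq inc d, Fintype.sum_prod_type, Finset.mul_sum]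
  refine Finset.sum_congr rfl fun σ _ => ?_
  rw [Fintype.sum_prod_type]
  simp only
  have h1 : ∀ π : P → Option (U × Bool), ∑ τ : U × P → Option Bool,
      (∏ u, ws inc u (σ u)) * ((∏ x, wp inc x (π x)) *
        ∏ ux : U × P, wt inc ux (σ ux.1) (π ux.2) (τ ux)) =
      (∏ u, ws inc u (σ u)) * ∏ x, (wp inc x (π x) * ∏ u, cc inc u x (σ u) (π x)) := by
    intro π
    rw [← Finset.mul_sum, ← Finset.mul_sum,
      sum_fun_prod (fun (ux : U × P) o => wt inc ux (σ ux.1) (π ux.2) o), Finset.prod_mul_distrib]
    congr 2
    rw [Fintype.prod_prod_type, Finset.prod_comm]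
    refine Finset.prod_congr rfl fun x _ => Finset.prod_congr rfl fun u _ => ?_
    exact sum_wt inc u x (σ u) (π x)
  rw [Finset.sum_congr rfl fun π _ => h1 π, ← Finset.mul_sum,
    sum_fun_prod (fun (x : P) r => wp inc x r * ∏ u, cc inc u x (σ u) r),
    Finset.prod_congr rfl fun x _ => sum_apex inc x σ, Finset.prod_mul_distrib, ← mul_assoc,
    ← mul_assoc]
  congr 1
  unfold gg
  rw [Finset.prod_comm, ← Finset.prod_mul_distrib, ← Finset.prod_mul_distrib]
  exact Finset.prod_congr rfl fun u _ => hub_sign inc u (σ u)

end Pool.Agent.H269.MEP
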