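import Pool.Agent.H269.MEP.Defs
import Pool.Agent.H269.MEP.Perm

/-!
# Transport to complexes, and the signed sum of the coefficients
-/

set_option autoImplicit false

namespace Pool.Agent.H269.MEP

open Finset

section Transport

variable {C : Type} [Fintype C] [DecidableEq C] (cov : C → C → Prop) (real : C → Finset ℕ)
  (D : Finset (Finset ℕ))

open Classical in
theorem sum_transport (hinj : Function.Injective real) (hD : ∀ s, s ∈ D ↔ ∃ x, real x = s)
    (hcov : ∀ x y, Cov D (real x) (real y) ↔ cov x y) :
    ∑ M ∈ matchings D, (-1 : ℤ) ^ M.card =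
    ∑ M ∈ (univ : Finset (Finset (C × C))).filter (fun M => MT cov M ∧ Ac cov M),
      (-1 : ℤ) ^ M.card := by
  symm
  have hp : Function.Injective (fun q : C × C => (real q.1, real q.2)) := by
    intro a b h
    simp only [Prod.mk.injEq] at h
    exact Prod.ext (hinj h.1) (hinj h.2)
  have hmem : ∀ (M : Finset (C × C)) (x y : C),
      (real x, real y) ∈ M.image (fun q : C × C => (real q.1, real q.2)) ↔ (x, y) ∈ M := by
    intro M x y
    rw [Finset.mem_image]
    constructor
    · rintro ⟨q, hq, e⟩
      have := @hp q (x, y) e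
      rw [← this]; exact hq
    · intro h
      exact ⟨(x, y), h, rfl⟩
  have harr : ∀ (M : Finset (C × C)) (x y : C),
      Arrow D (M.image (fun q : C × C => (real q.1, real q.2))) (real x) (real y) ↔
        Arr cov M x y := by
    intro M x y
    unfold Arrow Arr
    rw [hmem, hmem, hcov]
  have hac : ∀ M : Finset (C × C), MT cov M →
      (IsAcyclic D (M.image (fun q : C × C => (real q.1, real q.2))) ↔ Ac cov M) := by
    intro M hM
    constructor
    · intro h x hx
      refine h (real x) ?_
      exact Relation.TransGen.lift real (fun a b hab => (harr M a b).2 hab) _ _ hx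
    · intro h s hs
      have hsD : s ∈ D := by
        rcases Relation.TransGen.head'_iff.1 hs with ⟨t, (⟨hc, _⟩ | ht), _⟩
        · exact hc.2.1
        · rw [Finset.mem_image] at ht
          obtain ⟨q, _, e⟩ := ht
          simp only [Prod.mk.injEq] at e
          exact (hD s).2 ⟨q.1, e.1⟩
      obtain ⟨x, rfl⟩ := (hD s).1 hsD
      have key : ∀ t, Relation.TransGen
          (Arrow D (M.image (fun q : C × C => (real q.1, real q.2)))) (real x) t →
          ∃ y, real y = t ∧ Relation.TransGen (Arr cov M) x y := by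
        have hout : ∀ y t, Arrow D (M.image (fun q : C × C => (real q.1, real q.2))) (real y) t →
            ∃ z, real z = t ∧ Arr cov M y z := by
          intro y t h1
          have ht : t ∈ D := by
            rcases h1 with ⟨hc, _⟩ | ht
            · exact hc.1
            · rw [Finset.mem_image] at ht
              obtain ⟨q, _, e⟩ := ht
              simp only [Prod.mk.injEq] at e
              exact (hD t).2 ⟨q.2, e.2⟩
          obtain ⟨z, rfl⟩ := (hD t).1 ht
          exact ⟨z, rfl, (harr M y z).1 h1⟩
        intro t ht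
        induction ht with
        | single h1 =>
          obtain ⟨z, hz, h2⟩ := hout _ _ h1
          exact ⟨z, hz, Relation.TransGen.single h2⟩
        | tail _ h1 ih =>
          obtain ⟨y, rfl, h2⟩ := ih
          obtain ⟨z, hz, h3⟩ := hout _ _ h1
          exact ⟨z, hz, h2.tail h3⟩
      obtain ⟨y, hy, h2⟩ := key _ hs
      have := hinj hy
      subst this
      exact h _ h2
  refine Finset.sum_bij (fun M _ => M.image (fun q : C × C => (real q.1, real q.2)))
    ?_ ?_ ?_ ?_
  · intro M hM
    rw [Finset.mem_filter] at hM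
    unfold matchings
    rw [Finset.mem_filter, Finset.mem_powerset]
    refine ⟨?_, ⟨?_, ?_⟩, (hac M hM.2.1).2 hM.2.2⟩
    · intro q hq
      rw [Finset.mem_image] at hq
      obtain ⟨r, _, rfl⟩ := hq
      exact Finset.mem_product.2 ⟨(hD _).2 ⟨_, rfl⟩, (hD _).2 ⟨_, rfl⟩⟩
    · intro q hq
      rw [Finset.mem_image] at hq
      obtain ⟨r, hr, rfl⟩ := hq
      exact (hcov _ _).2 (hM.2.1.1 r hr)
    · intro q hq r hr hqr
      rw [Finset.mem_image] at hq hr
      obtain ⟨q, hq, rfl⟩ := hq
      obtain ⟨r, hr, rfl⟩ := hr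
      have hne : q ≠ r := fun e => hqr (by rw [e])
      obtain ⟨h1, h2, h3, h4⟩ := hM.2.1.2 q hq r hr hne
      exact ⟨hinj.ne h1, hinj.ne h2, hinj.ne h3, hinj.ne h4⟩
  · intro M _ M' _ h
    exact Finset.image_injective hp h
  · intro M hM
    unfold matchings at hM
    rw [Finset.mem_filter, Finset.mem_powerset] at hM
    have himg : ((univ : Finset (C × C)).filter (fun q => (real q.1, real q.2) ∈ M)).image
        (fun q : C × C => (real q.1, real q.2)) = M := by
      ext q
      simp only [Finset.mem_image, Finset.mem_filter, Finset.mem_univ, true_and]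
      constructor
      · rintro ⟨r, hr, rfl⟩
        exact hr
      · intro hq
        have h1 := Finset.mem_product.1 (hM.1 hq)
        obtain ⟨x, hx⟩ := (hD _).1 h1.1
        obtain ⟨y, hy⟩ := (hD _).1 h1.2
        refine ⟨(x, y), ?_, ?_⟩
        · simp only [hx, hy]; exact hq
        · simp only [hx, hy]
    have hMT : MT cov ((univ : Finset (C × C)).filter (fun q => (real q.1, real q.2) ∈ M)) := by
      constructor
      · intro q hq
        rw [Finset.mem_filter] at hq
        exact (hcov _ _).1 (hM.2.1.1 _ hq.2)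
      · intro q hq r hr hqr
        rw [Finset.mem_filter] at hq hr
        obtain ⟨h1, h2, h3, h4⟩ := hM.2.1.2 _ hq.2 _ hr.2 (fun e => hqr (hp e))
        exact ⟨fun e => h1 (congrArg real e), fun e => h2 (congrArg real e),
          fun e => h3 (congrArg real e), fun e => h4 (congrArg real e)⟩
    refine ⟨_, ?_, himg⟩
    rw [Finset.mem_filter]
    refine ⟨Finset.mem_univ _, hMT, ?_⟩
    rw [← hac _ hMT, himg]
    exact hM.2.2
  · intro M _
    rw [Finset.card_image_of_injective _ hp]

end Transport

/-! ### Critical edges -/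

variable {D : Finset (Finset ℕ)}

theorem crit_add_card (hD : ∀ s ∈ D, s.Nonempty ∧ s.card ≤ 3)
    {M : Finset (Finset ℕ × Finset ℕ)} (hM : M ∈ matchings D) :
    crit D M 1 + M.card = (D.filter (fun s => s.card = 2)).card := by
  classical
  unfold matchings at hM
  rw [Finset.mem_filter] at hM
  have hm := hM.2.1
  have h1 : M.card = (D.filter (fun s => s.card = 2 ∧ ¬ ∀ p ∈ M, p.1 ≠ s ∧ p.2 ≠ s)).card := by
    have hdim : ∀ p ∈ M, (p.1.card = 1 ∧ p.2.card = 2) ∨ (p.1.card = 2 ∧ p.2.card = 3) := by
      intro p hp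
      obtain ⟨h1, h2, _, h4⟩ := hm.1 p hp
      have h5 := Finset.card_pos.2 (hD _ h1).1
      have h6 := (hD _ h2).2
      omega
    refine Finset.card_bij (fun p _ => if p.1.card = 2 then p.1 else p.2) ?_ ?_ ?_
    · intro p hp
      obtain ⟨h1, h2, _, h4⟩ := hm.1 p hp
      rcases hdim p hp with ⟨h5, h6⟩ | ⟨h5, h6⟩
      · rw [if_neg (by omega), Finset.mem_filter]
        exact ⟨h2, h6, fun h => (h p hp).2 rfl⟩
      · rw [if_pos h5, Finset.mem_filter]
        exact ⟨h1, h5, fun h => (h p hp).1 rfl⟩
    · intro p hp q hq h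
      by_contra hne
      obtain ⟨h1, h2, h3, h4⟩ := hm.2 p hp q hq hne
      split_ifs at h with h5 h6 h6
      · exact h1 h
      · exact h2 h
      · exact h3 h
      · exact h4 h
    · intro s hs
      rw [Finset.mem_filter] at hs
      obtain ⟨hsD, hs2, hs3⟩ := hs
      push Not at hs3
      obtain ⟨p, hp, h⟩ := hs3
      refine ⟨p, hp, ?_⟩
      by_cases h1 : p.1 = s
      · rw [if_pos (by rw [h1]; exact hs2), h1]
      · have h2 := h h1
        have h3 := hdim p hp
        rw [if_neg, h2]
        rw [h2] at h3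
        omega
  rw [h1]
  unfold crit
  rw [← Finset.filter_filter, ← Finset.filter_filter]
  simp only [Nat.reduceAdd]
  exact Finset.card_filter_add_card_filter_not _

theorem sign_crit (hD : ∀ s ∈ D, s.Nonempty ∧ s.card ≤ 3) :
    |∑ M ∈ matchings D, (-1 : ℤ) ^ (crit D M 1)| = |∑ M ∈ matchings D, (-1 : ℤ) ^ M.card| := by
  have h : ∀ M ∈ matchings D, (-1 : ℤ) ^ (crit D M 1) =
      (-1) ^ (D.filter (fun s => s.card = 2)).card * (-1) ^ M.card := by
    intro M hM
    rw [← crit_add_card hD hM, pow_add, mul_assoc, ← pow_add, ← two_mul, pow_mul]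
    norm_num
  rw [Finset.sum_congr rfl h, ← Finset.mul_sum, abs_mul, abs_pow]
  norm_num

/-! ### The list of coefficients -/

theorem crit_le (M : Finset (Finset ℕ × Finset ℕ)) (i : ℕ) : crit D M i ≤ D.card :=
  Finset.card_filter_le _ _

theorem sum_map_range (n : ℕ) (h : ℕ → ℕ) :
    ((List.range n).map h).sum = ∑ k ∈ Finset.range n, h k := by
  rw [← List.sum_toFinset _ (List.nodup_range), List.toFinset_range]

theorem sum_flatMap_range {β : Type} (n : ℕ) (F : ℕ → List β) (g : β → ℕ) :
    (((List.range n).flatMap F).map g).sum = ∑ k ∈ Finset.range n, ((F k).map g).sum := by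
  rw [← sum_map_range]
  induction (List.range n) with
  | nil => rfl
  | cons a l ih =>
    rw [List.flatMap_cons, List.map_append, List.sum_append, ih, List.map_cons, List.sum_cons]

theorem sum_filter_zero {β : Type} (l : List (β × ℕ)) (w : β → ℕ) :
    ((l.filter fun q => decide (q.2 ≠ 0)).map (fun q => w q.1 * q.2)).sum =
      (l.map (fun q => w q.1 * q.2)).sum := by
  induction l with
  | nil => rfl
  | cons a l ih =>
    by_cases h : a.2 = 0
    · rw [List.filter_cons_of_neg (by simpa using h), ih, List.map_cons, List.sum_cons, h]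
      ring
    · rw [List.filter_cons_of_pos (by simpa using h), List.map_cons, List.sum_cons, ih,
        List.map_cons, List.sum_cons]

/-- sums over the list of coefficients -/
theorem sum_ME (K : List (List ℕ)) (w : ℕ → ℕ) :
    ((ME K).map (fun q => w q.1.2.1 * q.2)).sum =
      ∑ M ∈ matchings (cells K), w (crit (cells K) M 1) := by
  unfold ME
  rw [sum_filter_zero _ (fun t : ℕ × ℕ × ℕ => w t.2.1), sum_flatMap_range]
  simp only [sum_flatMap_range, List.map_map, sum_map_range, Function.comp_apply]
  set N := (cells K).card + 1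
  have h1 : ∀ a b c, w b * coef (cells K) a b c = ∑ M ∈ matchings (cells K),
      (if crit (cells K) M 0 = a then if crit (cells K) M 1 = b then
        if crit (cells K) M 2 = c then w b else 0 else 0 else 0) := by
    intro a b c
    unfold coef
    rw [Finset.card_filter, Finset.mul_sum]
    refine Finset.sum_congr rfl fun M _ => ?_
    split_ifs <;> simp_all
  simp only [h1]
  have h2 : ∀ a b, ∑ c ∈ Finset.range N, ∑ M ∈ matchings (cells K),
      (if crit (cells K) M 0 = a then if crit (cells K) M 1 = b then
        if crit (cells K) M 2 = c then w b else 0 else 0 else 0) =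
      ∑ M ∈ matchings (cells K), (if crit (cells K) M 0 = a then
        if crit (cells K) M 1 = b then w b else 0 else 0) := by
    intro a b
    rw [Finset.sum_comm]
    refine Finset.sum_congr rfl fun M _ => ?_
    split_ifs
    · rw [Finset.sum_ite_eq, if_pos (Finset.mem_range.2 (Nat.lt_succ_of_le (crit_le _ _)))]
    · simp
    · simp
  simp only [h2]
  have h3 : ∀ a, ∑ b ∈ Finset.range N, ∑ M ∈ matchings (cells K),
      (if crit (cells K) M 0 = a then if crit (cells K) M 1 = b then w b else 0 else 0) =
      ∑ M ∈ matchings (cells K), (if crit (cells K) M 0 = a then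
        w (crit (cells K) M 1) else 0) := by
    intro a
    rw [Finset.sum_comm]
    refine Finset.sum_congr rfl fun M _ => ?_
    split_ifs
    · rw [Finset.sum_ite_eq, if_pos (Finset.mem_range.2 (Nat.lt_succ_of_le (crit_le _ _)))]
    · simp
  simp only [h3]
  rw [Finset.sum_comm]
  refine Finset.sum_congr rfl fun M _ => ?_
  rw [Finset.sum_ite_eq, if_pos (Finset.mem_range.2 (Nat.lt_succ_of_le (crit_le _ _)))]

/-- the even and the odd part of the signed sum -/
def evn (l : List ((ℕ × ℕ × ℕ) × ℕ)) (r : ℕ) : ℕ :=
  (l.map (fun q => (if q.1.2.1 % 2 = r then 1 else 0) * q.2)).sum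

/-- the absolute value of the signed sum -/
def sgs (l : List ((ℕ × ℕ × ℕ) × ℕ)) : ℕ := (evn l 0 - evn l 1) + (evn l 1 - evn l 0)

theorem sgs_ME (K : List (List ℕ)) :
    ((sgs (ME K) : ℕ) : ℤ) = |∑ M ∈ matchings (cells K), (-1 : ℤ) ^ (crit (cells K) M 1)| := by
  have h1 : ∑ M ∈ matchings (cells K), (-1 : ℤ) ^ (crit (cells K) M 1) =
      (evn (ME K) 0 : ℤ) - (evn (ME K) 1 : ℤ) := by
    unfold evn
    rw [sum_ME K (fun b => if b % 2 = 0 then 1 else 0), sum_ME K (fun b => if b % 2 = 1 then 1 else 0),
      Nat.cast_sum, Nat.cast_sum, ← Finset.sum_sub_distrib]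
    refine Finset.sum_congr rfl fun M _ => ?_
    rcases Nat.even_or_odd (crit (cells K) M 1) with h | h
    · rw [h.neg_one_pow, if_pos (Nat.even_iff.1 h), if_neg (by rw [Nat.even_iff.1 h]; omega)]
      norm_num
    · rw [h.neg_one_pow, if_pos (Nat.odd_iff.1 h), if_neg (by rw [Nat.odd_iff.1 h]; omega)]
      norm_num
  rw [h1]
  unfold sgs
  rcases le_total (evn (ME K) 0) (evn (ME K) 1) with h | h
  · rw [abs_of_nonpos (by omega)]
    omega
  · rw [abs_of_nonneg (by omega)]
    omega

end Pool.Agent.H269.MEP
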